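import Pool.Agent.W792.GK.Stm
import Pool.Agent.W52.GKCoef

/-!
The symbol of the lattice Laplacian and the form of the eigenvalue equation.
-/

namespace Pool.Agent.W792.GKLap

open MeasureTheory UnitAddTorus Pool.Agent.W792.GK

noncomputable section

local instance : MeasureSpace UnitAddCircle := ⟨AddCircle.haarAddCircle⟩

local instance : Measure.IsAddHaarMeasure (volume : Measure UnitAddCircle) :=
  inferInstanceAs (Measure.IsAddHaarMeasure AddCircle.haarAddCircle)

local instance : IsProbabilityMeasure (volume : Measure UnitAddCircle) :=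
  inferInstanceAs (IsProbabilityMeasure AddCircle.haarAddCircle)

theorem hop_sq_summable {ι : Type} [Fintype ι] (K : C(UnitAddTorus ι, ℝ)) :
    Summable fun x : ι → ℤ => ‖hop K x‖ ^ 2 := by
  set F : C(UnitAddTorus ι, ℂ) := ⟨fun t => (K t : ℂ), by fun_prop⟩ with hF
  have h := hasSum_sq_mFourierCoeff (F.toLp 2 (volume : Measure (UnitAddTorus ι)) ℂ)
  have h2 : (fun x : ι → ℤ => ‖mFourierCoeff (F.toLp 2 (volume : Measure (UnitAddTorus ι)) ℂ) x‖ ^ 2)
      = fun x => ‖hop K x‖ ^ 2 := by
    funext x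
    rw [mFourierCoeff_toLp]
    rfl
  rw [h2] at h
  exact h.summable

theorem hop_summable {ι : Type} [Fintype ι] (K : C(UnitAddTorus ι, ℝ)) (u : (ι → ℤ) → ℂ)
    (hu : Summable fun x => ‖u x‖ ^ 2) (x : ι → ℤ) : Summable fun y => hop K (x - y) * u y := by
  have h1 : Summable fun y : ι → ℤ => ‖hop K (x - y)‖ ^ 2 :=
    ((Equiv.subLeft x).summable_iff (f := fun y => ‖hop K y‖ ^ 2)).2 (hop_sq_summable K)
  refine Summable.of_norm_bounded ((h1.add hu).div_const 2) fun y => ?_
  rw [norm_mul]
  have := two_mul_le_add_sq ‖hop K (x - y)‖ ‖u y‖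
  linarith

theorem hop_add {ι : Type} [Fintype ι] (K L : C(UnitAddTorus ι, ℝ)) (x : ι → ℤ) :
    hop (K + L) x = hop K x + hop L x := by
  have hi : ∀ f : C(UnitAddTorus ι, ℝ),
      Integrable (fun t => mFourier (-x) t • ((f t : ℝ) : ℂ)) volume := by
    intro f
    have hc : Continuous fun t : UnitAddTorus ι => mFourier (-x) t • ((f t : ℝ) : ℂ) := by fun_prop
    exact hc.integrable_of_hasCompactSupport (HasCompactSupport.of_compactSpace _)
  unfold hop mFourierCoeff
  rw [← integral_add (hi K) (hi L)]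
  refine integral_congr_ae (Filter.Eventually.of_forall fun t => ?_)
  simp only [ContinuousMap.add_apply, Complex.ofReal_add, smul_add]

/-- The symbol `∑ i (2 - 2 cos (2 π k_i))` of the operator `-Δ`. -/
def lapSym (d : ℕ) : C(UnitAddTorus (Fin d), ℝ) where
  toFun k := ∑ i, (2 - 2 * (fourier 1 (k i)).re)
  continuous_toFun := by fun_prop

/-- Its kernel. -/
def lapKer (d : ℕ) : (Fin d → ℤ) →₀ ℂ :=
  ∑ i, (Finsupp.single 0 2 - Finsupp.single (Pi.single i 1) 1 - Finsupp.single (-Pi.single i 1) 1)

theorem lap_trig (d : ℕ) (k : UnitAddTorus (Fin d)) : (lapSym d k : ℂ) = trig (lapKer d) k := by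
  classical
  have key : ∀ h : (Fin d → ℤ) →₀ ℂ, trig h k = h.sum fun n c => c * mFourier n k := by
    intro h
    unfold trig
    rw [Finsupp.sum, Finsupp.sum, ContinuousMap.sum_apply]
    rfl
  set L : ((Fin d → ℤ) →₀ ℂ) →+ ℂ := Finsupp.liftAddHom (fun n =>
    (AddMonoidHom.mulRight (mFourier n k) : ℂ →+ ℂ)) with hL
  have hLt : ∀ h, trig h k = L h := by
    intro h
    rw [key, hL, Finsupp.liftAddHom_apply]
    rfl
  have hLs : ∀ (n : Fin d → ℤ) (c : ℂ), L (Finsupp.single n c) = c * mFourier n k := by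
    intro n c
    rw [hL, Finsupp.liftAddHom_apply_single]
    rfl
  have e1 : ∀ i : Fin d, mFourier (Pi.single i 1) k = fourier 1 (k i) := fun i => by
    rw [mFourier_single]
  rw [hLt, lapKer, map_sum]
  unfold lapSym
  simp only [ContinuousMap.coe_mk, Complex.ofReal_sum]
  refine Finset.sum_congr rfl fun i _ => ?_
  rw [map_sub, map_sub, hLs, hLs, hLs, mFourier_neg, e1]
  have e2 : (mFourier (0 : Fin d → ℤ)) k = 1 := by rw [mFourier_zero]; rfl
  rw [e2]
  apply Complex.ext
  · simp
    ring
  · simp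

theorem lap_hop (d : ℕ) (x : Fin d → ℤ) : hop (lapSym d) x = lapKer d x :=
  Pool.Agent.W52.GKCoef.main (Fin d) (lapKer d) (lapSym d) (lap_trig d) x

/-- The operator `-Δ`. -/
def negLap {d : ℕ} (u : (Fin d → ℤ) → ℂ) (x : Fin d → ℤ) : ℂ :=
  ∑ i, (2 * u x - u (x + Pi.single i 1) - u (x - Pi.single i 1))

theorem lap_conv (d : ℕ) (u : (Fin d → ℤ) → ℂ) (x : Fin d → ℤ) :
    ∑' y, hop (lapSym d) (x - y) * u y = negLap u x := by
  classical
  simp_rw [lap_hop]
  have h1 : ∀ y, lapKer d (x - y) * u y = ∑ i : Fin d, ((if y = x then 2 * u x else 0)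
      - (if y = x - Pi.single i 1 then u (x - Pi.single i 1) else 0)
      - (if y = x + Pi.single i 1 then u (x + Pi.single i 1) else 0)) := by
    intro y
    rw [lapKer, Finsupp.finset_sum_apply, Finset.sum_mul]
    refine Finset.sum_congr rfl fun i _ => ?_
    rw [Finsupp.sub_apply, Finsupp.sub_apply, Finsupp.single_apply, Finsupp.single_apply,
      Finsupp.single_apply]
    have a1 : ((0 : Fin d → ℤ) = x - y) ↔ y = x := by
      constructor
      · intro h; exact (sub_eq_zero.1 h.symm).symm
      · intro h; rw [h, sub_self]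
    have a2 : ((Pi.single i 1 : Fin d → ℤ) = x - y) ↔ y = x - Pi.single i 1 := by
      constructor
      · intro h; rw [h]; abel
      · intro h; rw [h]; abel
    have a3 : (-(Pi.single i 1 : Fin d → ℤ) = x - y) ↔ y = x + Pi.single i 1 := by
      constructor
      · intro h
        have h2 : (Pi.single i 1 : Fin d → ℤ) = -(x - y) := by rw [← h, neg_neg]
        rw [h2]; abel
      · intro h; rw [h]; abel
    rw [if_congr a1 rfl rfl, if_congr a2 rfl rfl, if_congr a3 rfl rfl]
    rw [sub_mul, sub_mul]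
    congr 1
    · congr 1
      · split_ifs with h
        · rw [h]
        · simp
      · split_ifs with h
        · rw [h, one_mul]
        · simp
    · split_ifs with h
      · rw [h, one_mul]
      · simp
  simp_rw [h1]
  have hs : ∀ (a : Fin d → ℤ) (c : ℂ), Summable fun y : Fin d → ℤ => if y = a then c else 0 :=
    fun a c => (hasSum_ite_eq a c).summable
  rw [Summable.tsum_finsetSum fun i _ => ((hs _ _).sub (hs _ _)).sub (hs _ _)]
  unfold negLap
  refine Finset.sum_congr rfl fun i _ => ?_
  rw [Summable.tsum_sub ((hs _ _).sub (hs _ _)) (hs _ _), Summable.tsum_sub (hs _ _) (hs _ _),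
    tsum_ite_eq, tsum_ite_eq, tsum_ite_eq]
  ring

theorem lap_isSym (d : ℕ) : IsSym (lapSym d) := by
  constructor
  · intro σ k
    exact Equiv.sum_comp σ fun i => (2 - 2 * (fourier 1 (k i)).re)
  · intro i k
    show ∑ j, (2 - 2 * (fourier 1 (Function.update k i (-(k i)) j)).re) = _
    refine Finset.sum_congr rfl fun j _ => ?_
    by_cases h : j = i
    · subst h
      rw [Function.update_self]
      have : fourier 1 (-(k j)) = (starRingEnd ℂ) (fourier 1 (k j)) := by
        rw [← fourier_neg]
        simp [fourier_apply]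
      rw [this, Complex.conj_re]
    · rw [Function.update_of_ne h]

end

end Pool.Agent.W792.GKLap
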