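import Pool.Agent.W792.GK.Defs

/-!
Statements of the parts of the project GK (generic kinetic energies, MP_28b024_mp).
-/

namespace Pool.Agent.W792.GK

open MeasureTheory
open scoped ComplexOrder

noncomputable section

/-! ## A. The finite model -/

/-- Square of the Frobenius norm. -/
def fro {Q : Type} [Fintype Q] (M : Matrix Q Q ℂ) : ℝ := ∑ x, ∑ y, ‖M x y‖ ^ 2

/-- Block of a matrix on `Q × J`. -/
def blk {Q J : Type} (Z : Matrix (Q × J) (Q × J) ℂ) (i j : J) : Matrix Q Q ℂ :=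
  fun x y => Z (x, i) (y, j)

/-- Alternating words. -/
def Zk {Q J : Type} [Fintype Q] [DecidableEq Q] [Fintype J] [DecidableEq J]
    (T : Matrix (Q × J) (Q × J) ℂ) (X : J → Matrix Q Q ℂ) (k : ℕ) : Matrix (Q × J) (Q × J) ℂ :=
  T * (Matrix.blockDiagonal X * T) ^ k

/-- Remove the block at `j`. -/
def kil {Q J : Type} [DecidableEq J] (X : J → Matrix Q Q ℂ) (j : J) : J → Matrix Q Q ℂ :=
  Function.update X j 0

/-- Deterministic part of the freeness lemma. -/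
def S_LF1 : Prop :=
  ∀ (k : ℕ) (Q : Type) [Fintype Q] [DecidableEq Q], ∃ C : ℝ, 0 ≤ C ∧
    ∀ (J : Type) [Fintype J] [DecidableEq J] (T : Matrix (Q × J) (Q × J) ℂ), OpB T 1 →
      ∀ X : J → Matrix Q Q ℂ, (∀ j, OpB (X j) 1) → ∀ p : J,
      (∀ j, blk (Zk T X k) j p = blk (Zk T (kil X j) k) j p +
        ∑ i ∈ Finset.range k, blk (Zk T (kil X j) i) j j * X j * blk (Zk T X (k - 1 - i)) j p) ∧
      (∑ j, fro (blk (Zk T X k) j p) ≤ C) ∧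
      (∑ j, fro (blk (Zk T (kil X j) k) j p) ≤ C) ∧
      (∑ j, ∑ j' ∈ Finset.univ.erase j, fro (blk (Zk T (kil X j) k) j p
        - blk (Zk T (kil (kil X j) j') k) j p) ≤ C)

/-- Freeness lemma: closed alternating words in a spread matrix `T` and independent centred
diagonal blocks are small. -/
def S_LF : Prop :=
  ∀ (k : ℕ) (Q : Type) [Fintype Q] [DecidableEq Q], ∃ c : ℝ, 0 ≤ c ∧
    ∀ (J : Type) [Fintype J] [DecidableEq J] (Ω : Type) [MeasurableSpace Ω] (μ : Measure Ω)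
      [IsProbabilityMeasure μ] (f : J → Ω → Matrix Q Q ℂ),
      (∀ j x y, Measurable fun w => f j w x y) → (∀ j w, OpB (f j w) 1) →
      (∀ j x y, ∫ w, f j w x y ∂μ = 0) →
      ∀ T : Matrix (Q × J) (Q × J) ℂ, OpB T 1 → ∀ ε : ℝ, 0 ≤ ε →
      (∀ i j x y, ‖T (x, i) (y, j)‖ ≤ ε) → ∀ p : J,
      ∫ ω, e1 (fun x y : Q =>
        (T * (Matrix.blockDiagonal (fun j => f j (ω j)) * T) ^ k) (x, p) (y, p))
          ∂(Measure.pi fun _ : J => μ) ≤ c * ε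

/-- The fixed point `g = E (D - z - s² g)⁻¹` for large `z`. -/
def S_FP : Prop :=
  ∀ (Q : Type) [Fintype Q] [DecidableEq Q] (C s : ℝ), 0 ≤ C → 0 < s →
    ∀ z : ℂ, 8 * (C + s + 1) ≤ ‖z‖ →
    ∀ (Ω : Type) [MeasurableSpace Ω] (μ : Measure Ω) [IsProbabilityMeasure μ]
      (D : Ω → Matrix Q Q ℂ), (∀ x y, Measurable fun w => D w x y) → (∀ w, OpB (D w) C) →
    ∃ (g : Matrix Q Q ℂ) (Y : Ω → Matrix Q Q ℂ), (∀ x y, Measurable fun w => Y w x y) ∧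
      OpB g (2 / ‖z‖) ∧ (∀ w, OpB (Y w) (2 / ‖z‖)) ∧
      (∀ w, Y w * (D w - z • (1 : Matrix Q Q ℂ) - ((s ^ 2 : ℝ) : ℂ) • g) = 1) ∧
      (∀ w, (D w - z • (1 : Matrix Q Q ℂ) - ((s ^ 2 : ℝ) : ℂ) • g) * Y w = 1) ∧
      ∀ x y, ∫ w, Y w x y ∂μ = g x y

/-- The Chebyshev series. -/
def S_SER : Prop :=
  ∀ (Q J : Type) [Fintype Q] [DecidableEq Q] [Fintype J] [DecidableEq J] (s γ : ℝ), 0 < s →
    0 ≤ γ → γ ≤ 1 / (8 * (s + 1)) → ∀ (g : Matrix Q Q ℂ), OpB g γ →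
    ∀ (A : Matrix J J ℂ), OpB A (3 * s) →
    ∃ S : Matrix (Q × J) (Q × J) ℂ, OpB S (8 * s) ∧
      (Matrix.kronecker g (1 : Matrix J J ℂ)) * S = S * (Matrix.kronecker g (1 : Matrix J J ℂ)) ∧
      (Matrix.kronecker (1 : Matrix Q Q ℂ) A
        + ((s ^ 2 : ℝ) : ℂ) • Matrix.kronecker g (1 : Matrix J J ℂ))
        * (1 + (Matrix.kronecker g (1 : Matrix J J ℂ)) * S) = -S ∧
      ∀ (δ : ℝ) (n₀ : ℕ), 0 ≤ δ → (∀ n, 1 ≤ n → n ≤ n₀ → ∀ i j, ‖ch (s ^ 2) A n i j‖ ≤ δ) →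
        ∀ x i y j, ‖S (x, i) (y, j)‖ ≤ 2 * δ + 8 * s * (1 / 2) ^ n₀

/-- The defects are small for large `z`. -/
def S_LZ : Prop :=
  ∀ (Q : Type) [AddCommGroup Q] [Fintype Q] [DecidableEq Q] (κ : Q → ℂ) (s R C : ℝ),
    0 < s → 0 < R → (∀ w : Q → ℝ, (∀ x, |w x| ≤ R) →
      OpB (fun x y : Q => κ (x - y) + (if x = y then (w x : ℂ) else 0)) C) → 0 ≤ C →
    ∀ z : ℂ, 64 * (C + s + 1) ≤ ‖z‖ → ∀ ε : ℝ, 0 < ε → ∃ (δ : ℝ) (n₀ : ℕ), 0 < δ ∧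
    ∀ (J : Type) [Fintype J] [DecidableEq J] (A : Matrix J J ℂ) (p : J) (ν : Measure ℝ)
      [IsProbabilityMeasure ν], ν (Set.Icc (-R) R)ᶜ = 0 → Adm s δ n₀ A →
      (∫ v, e1 (hL s κ A ν v z p) ∂(pm Q J ν) ≤ ε) ∧ (∫ v, e1 (hR s κ A ν v z p) ∂(pm Q J ν) ≤ ε)

/-- Propagation of smallness from finitely many points of a small circle. -/
def S_CONT : Prop :=
  ∀ (z₀ w : ℂ) (ρ Rad : ℝ), 0 < ρ → ρ < Rad → ‖w - z₀‖ < Rad → ∀ ε : ℝ, 0 < ε →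
    ∃ (S : Finset ℂ) (L : ℝ), 0 ≤ L ∧ (∀ ζ ∈ S, ‖ζ - z₀‖ = ρ) ∧
      ∀ f : ℂ → ℂ, DifferentiableOn ℂ f (Metric.ball z₀ Rad) →
        (∀ z ∈ Metric.ball z₀ Rad, ‖f z‖ ≤ 1) → ‖f w‖ ≤ L * ∑ ζ ∈ S, ‖f ζ‖ + ε

/-- The defects are small for every `z` in the upper half plane. -/
def S_ALLZ : Prop :=
  ∀ (Q : Type) [AddCommGroup Q] [Fintype Q] [DecidableEq Q] (κ : Q → ℂ),
    (∀ x, κ (-x) = (starRingEnd ℂ) (κ x)) → ∀ (s R : ℝ),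
    0 < s → 0 < R → ∀ z : ℂ, 0 < z.im → ∀ ε : ℝ, 0 < ε → ∃ (δ : ℝ) (n₀ : ℕ), 0 < δ ∧
    ∀ (J : Type) [Fintype J] [DecidableEq J] (A : Matrix J J ℂ) (p : J) (ν : Measure ℝ)
      [IsProbabilityMeasure ν], ν (Set.Icc (-R) R)ᶜ = 0 → Adm s δ n₀ A →
      (∫ v, e1 (hL s κ A ν v z p) ∂(pm Q J ν) ≤ ε) ∧ (∫ v, e1 (hR s κ A ν v z p) ∂(pm Q J ν) ≤ ε)

/-- Imaginary part of a matrix. -/
def imM {Q : Type} (G : Matrix Q Q ℂ) : Matrix Q Q ℂ := (1 / (2 * Complex.I)) • (G - G.conjTranspose)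

/-- The main inequality. -/
def S_P2 : Prop :=
  ∀ (Q : Type) [Fintype Q] [DecidableEq Q] [Nonempty Q] (Ω : Type) [MeasurableSpace Ω]
    (μ : Measure Ω) [IsProbabilityMeasure μ] (D G : Ω → Matrix Q Q ℂ) (s : ℝ) (z : ℂ),
    0 < s → 0 < z.im → (∀ x y, Measurable fun w => D w x y) →
    (∀ x y, Measurable fun w => G w x y) → (∃ C, ∀ w, OpB (D w) C) →
    (∀ w, (D w).IsHermitian) → (∀ w, (imM (G w)).PosSemidef) →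
    (∀ w, ((z.im : ℂ)⁻¹ • imM (G w) - imM (G w) * imM (G w)).PosSemidef) →
    (∀ w, OpB (G w) (1 / z.im)) →
    ∀ g : Matrix Q Q ℂ, (∀ x y, ∫ w, G w x y ∂μ = g x y) → ∀ a : ℝ, 0 < a →
    (∫ w, ∑ x, ∑ y, ‖imM (G w) x y‖ ^ 2 ∂μ) / Fintype.card Q ≤
      a / z.im + 1 / (a * s ^ 2) * ((∫ w, ∑ x, (G w x x).im ∂μ) / Fintype.card Q
        + (1 / z.im) * (∫ w, e1 (1 - (D w - z • (1 : Matrix Q Q ℂ) - ((s ^ 2 : ℝ) : ℂ) • g) * G w) ∂μ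
          + ∫ w, e1 (1 - G w * (D w - z • (1 : Matrix Q Q ℂ) - ((s ^ 2 : ℝ) : ℂ) • g)) ∂μ))

/-- Sum over the grid. -/
def S_GRID : Prop :=
  ∀ (n : Type) [Fintype n] [DecidableEq n] (H : Matrix n n ℂ), H.IsHermitian →
    ∀ (η : ℝ), 0 < η → ∀ (m : ℤ) (i : n),
      (∀ k : ℤ, 0 ≤ (((H - zk η k • (1 : Matrix n n ℂ))⁻¹) i i).im) ∧
      ∑ k ∈ Finset.Icc (-m) m, (((H - zk η k • (1 : Matrix n n ℂ))⁻¹) i i).im ≤ 5 / η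

/-- Facts on the resolvent of the finite model. -/
def S_GR : Prop :=
  ∀ (Q J : Type) [AddCommGroup Q] [Fintype Q] [DecidableEq Q] [Fintype J] [DecidableEq J]
    (κ : Q → ℂ), (∀ x, κ (-x) = (starRingEnd ℂ) (κ x)) → ∀ (A : Matrix J J ℂ), A.IsHermitian →
    ∀ (p : J),
    (∀ v : Q × J → ℝ, (ham κ A v).IsHermitian) ∧
    (∀ v : Q × J → ℝ, (dd κ v p : Matrix Q Q ℂ).IsHermitian) ∧
    (∀ z : ℂ, z.im ≠ 0 → Continuous fun v : Q × J → ℝ => gr κ A v z p) ∧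
    (∀ (z : ℂ), 0 < z.im → ∀ v : Q × J → ℝ,
      (imM (gr κ A v z p)).PosSemidef ∧
      ((z.im : ℂ)⁻¹ • imM (gr κ A v z p) - imM (gr κ A v z p) * imM (gr κ A v z p)).PosSemidef ∧
      OpB (gr κ A v z p) (1 / z.im)) ∧
    (∀ v : Q × J → ℝ, ∀ x y, DifferentiableOn ℂ (fun z => gr κ A v z p x y) {z | 0 < z.im}) ∧
    (∀ (z : ℂ), z.im ≠ 0 → ∀ v : Q × J → ℝ, IsUnit (ham κ A v - z • (1 : Matrix (Q × J) (Q × J) ℂ)))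

/-- Translation invariance in law. -/
def S_TI : Prop :=
  ∀ (Q J : Type) [AddCommGroup Q] [Fintype Q] [DecidableEq Q] [Fintype J] [DecidableEq J]
    (κ : Q → ℂ) (A : Matrix J J ℂ) (p : J) (ν : Measure ℝ) [IsProbabilityMeasure ν]
    (F : ℂ → ℝ) (z : ℂ) (x : Q),
    ∫ v, F (gr κ A v z p x x) ∂(pm Q J ν) = ∫ v, F (gr κ A v z p 0 0) ∂(pm Q J ν)

/-- The functional of the finite model. -/
def Qf {Q J : Type} [AddCommGroup Q] [Fintype Q] [DecidableEq Q] [Fintype J] [DecidableEq J]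
    (κ : Q → ℂ) (A : Matrix J J ℂ) (η B : ℝ) (v : Q × J → ℝ) (p : J) : ℝ :=
  η ^ 2 * ∑ k ∈ Finset.Icc (-⌈B / η⌉) ⌈B / η⌉, ((gr κ A v (zk η k) p 0 0).im) ^ 2

/-- The theorem on the finite model. -/
def S_FM : Prop :=
  ∀ (Q : Type) [AddCommGroup Q] [Fintype Q] [DecidableEq Q] (κ : Q → ℂ),
    (∀ x, κ (-x) = (starRingEnd ℂ) (κ x)) → ∀ (s R η B ε : ℝ), 0 < s → 0 < R → 0 < η → η ≤ 1 →
    0 ≤ B → 0 < ε → ∃ (δ : ℝ) (n₀ : ℕ), 0 < δ ∧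
    ∀ (J : Type) [Fintype J] [DecidableEq J] (A : Matrix J J ℂ) (p : J) (ν : Measure ℝ)
      [IsProbabilityMeasure ν], ν (Set.Icc (-R) R)ᶜ = 0 → Adm s δ n₀ A →
      ∫ v, Qf κ A η B v p ∂(pm Q J ν) ≤ (10 / s) * Real.sqrt ((B + 1) * η) + ε

/-! ## B. The symbols -/

/-- A symmetric function with semicircle law under Haar measure. -/
def S_SY1 : Prop :=
  ∀ (ι : Type) [Fintype ι] [DecidableEq ι] [Nonempty ι] (s : ℝ), 0 < s →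
    ∃ a : C(UnitAddTorus ι, ℝ), IsSym a ∧ (∀ k, |a k| ≤ 2 * s) ∧
      ∀ n : ℕ, 1 ≤ n → UnitAddTorus.mFourierCoeff (fun k => ((ch (s ^ 2) (a k) n : ℝ) : ℂ))
        (0 : ι → ℤ) = 0

/-- Fourier coefficients of symmetric functions are spread out. -/
def S_SY2 : Prop :=
  ∀ (ι : Type) [Fintype ι] [DecidableEq ι] (f : C(UnitAddTorus ι, ℝ)), IsSym f →
    ∀ γ : ι → ℤ, γ ≠ 0 → ‖hop f γ‖ ^ 2 * (Fintype.card ι : ℝ) ≤ 2 * ‖f‖ ^ 2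

/-- The symbols used. -/
def S_SY3 : Prop :=
  ∀ (d : ℕ), 0 < d → ∀ (s δ : ℝ) (n₀ : ℕ), 0 < s → 0 < δ →
    ∃ (r : ℕ) (a : C(UnitAddTorus (Fin d × Fin r), ℝ)), 0 < r ∧ IsSym a ∧ (∀ k, |a k| ≤ 2 * s) ∧
      ∀ n : ℕ, 1 ≤ n → n ≤ n₀ → ∀ γ : Fin d × Fin r → ℤ,
        ‖UnitAddTorus.mFourierCoeff (fun k => ((ch (s ^ 2) (a k) n : ℝ) : ℂ)) γ‖ ≤ δ

/-- Real trigonometric polynomials are dense. -/
def S_APPROX : Prop :=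
  ∀ (ι : Type) [Fintype ι] (f : C(UnitAddTorus ι, ℝ)) (ε : ℝ), 0 < ε →
    ∃ (h : (ι → ℤ) →₀ ℂ) (f' : C(UnitAddTorus ι, ℝ)), (∀ n, h (-n) = (starRingEnd ℂ) (h n)) ∧
      (∀ k, (f' k : ℂ) = trig h k) ∧ ‖f' - f‖ ≤ ε

/-- Fourier coefficients of a trigonometric polynomial. -/
def S_COEF : Prop :=
  ∀ (ι : Type) [Fintype ι] (h : (ι → ℤ) →₀ ℂ) (f : C(UnitAddTorus ι, ℝ)),
    (∀ k, (f k : ℂ) = trig h k) → ∀ x, hop f x = h x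

/-- The circulant matrix of a kernel on `(ℤ/ℓ)^ι`. -/
def circ {ι : Type} (ℓ : ℕ) (h : (ι → ℤ) →₀ ℂ) : Matrix (ι → ZMod ℓ) (ι → ZMod ℓ) ℂ :=
  fun i j => (h.mapDomain (fun n i => ((n i : ℤ) : ZMod ℓ))) (i - j)

/-- Circulant matrices: hermitian and bounded by the sup norm. -/
def S_CIRC1 : Prop :=
  ∀ (ι : Type) [Fintype ι] [DecidableEq ι] (h : (ι → ℤ) →₀ ℂ) (f : C(UnitAddTorus ι, ℝ)),
    (∀ n, h (-n) = (starRingEnd ℂ) (h n)) → (∀ k, (f k : ℂ) = trig h k) →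
    ∀ (ℓ : ℕ) [NeZero ℓ], (circ ℓ h).IsHermitian ∧ OpB (circ ℓ h) ‖f‖

/-- Circulant matrices: Chebyshev entries are given by Fourier coefficients once `ℓ` is large. -/
def S_CIRC2 : Prop :=
  ∀ (ι : Type) [Fintype ι] [DecidableEq ι] (h : (ι → ℤ) →₀ ℂ) (f : C(UnitAddTorus ι, ℝ)),
    (∀ k, (f k : ℂ) = trig h k) → ∀ (c : ℝ) (n₀ : ℕ), ∃ ℓ₀ : ℕ, ∀ (ℓ : ℕ) [NeZero ℓ], ℓ₀ ≤ ℓ →
      ∀ n ≤ n₀, ∀ i j : ι → ZMod ℓ, ∃ γ : ι → ℤ, ‖ch c (circ ℓ h) n i j‖ ≤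
        ‖UnitAddTorus.mFourierCoeff (fun k => ((ch c (f k) n : ℝ) : ℂ)) γ‖

/-! ## C. Transfer -/

/-- Polynomial approximation of resolvents. -/
def S_PA : Prop :=
  ∀ (C : ℝ) (z : ℂ) (ε : ℝ), z.im ≠ 0 → 0 < ε → ∃ P : Polynomial ℂ,
    ∀ (E : Type) [NormedAddCommGroup E] [InnerProductSpace ℂ E] [CompleteSpace E]
      (T : E →L[ℂ] E), IsSelfAdjoint T → ‖T‖ ≤ C →
      IsUnit (T - z • (1 : E →L[ℂ] E)) ∧
      ‖Ring.inverse (T - z • (1 : E →L[ℂ] E)) - Polynomial.aeval T P‖ ≤ ε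

/-- Moments under homomorphisms. -/
def S_MOM : Prop :=
  ∀ (Γ₀ Γ : Type) [AddCommGroup Γ₀] [AddCommGroup Γ] (φ : Γ₀ →+ Γ) (h : Γ₀ →₀ ℂ) (n : ℕ),
    (∀ x ∈ nb h n, φ x = 0 → x = 0) → ∀ w : Γ → ℝ, ∀ m ≤ n,
      mom (h.mapDomain φ) w m = mom h (fun x => w (φ x)) m

/-- Equality of laws of moments. -/
def S_LAW : Prop :=
  ∀ (Γ₀ Γ : Type) [AddCommGroup Γ₀] [AddCommGroup Γ] [Countable Γ₀] [Countable Γ]
    (φ : Γ₀ →+ Γ) (h : Γ₀ →₀ ℂ) (n : ℕ),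
    (∀ x ∈ nb h n, ∀ y ∈ nb h n, φ x = φ y → x = y) →
    ∀ (ν : Measure ℝ) [IsProbabilityMeasure ν] (c : ℝ → ℝ), Measurable c →
    ∀ (F : (Fin (n + 1) → ℂ) → ℝ), Measurable F →
      ∫ v, F (fun m => mom (h.mapDomain φ) (fun x => c (v x)) m)
        ∂(Measure.infinitePi fun _ : Γ => ν) =
      ∫ v, F (fun m => mom h (fun x => c (v x)) m) ∂(Measure.infinitePi fun _ : Γ₀ => ν)

/-- Existence of the hopping operators. -/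
def S_T1 : Prop :=
  ∀ (ι : Type) [Fintype ι] (K : C(UnitAddTorus ι, ℝ)), ∃ T, IsHop K T

/-- Existence of the multiplication operators. -/
def S_T2 : Prop :=
  ∀ (Γ : Type) (R : ℝ), 0 < R → ∀ (v : Γ → ℝ), ∃ M : l2 Γ →L[ℂ] l2 Γ, IsMul R v M

/-- Moments of the operator on `ℓ²(ℤ^ι)`. -/
def S_MOP : Prop :=
  ∀ (ι : Type) [Fintype ι] [DecidableEq ι] (h : (ι → ℤ) →₀ ℂ) (K : C(UnitAddTorus ι, ℝ)),
    (∀ k, (K k : ℂ) = trig h k) → ∀ (T : l2 (ι → ℤ) →L[ℂ] l2 (ι → ℤ)), IsHop K T →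
    ∀ (R : ℝ) (v : (ι → ℤ) → ℝ) (M : l2 (ι → ℤ) →L[ℂ] l2 (ι → ℤ)), IsMul R v M →
    ∀ n : ℕ, ((T + M) ^ n) (lp.single 2 (0 : ι → ℤ) (1 : ℂ)) 0
      = mom h (fun x => clamp R (v x)) n

/-- The kernel on a product. -/
def prodKer {Γ₁ Γ₂ : Type} [AddCommGroup Γ₁] [AddCommGroup Γ₂] (h₁ : Γ₁ →₀ ℂ) (h₂ : Γ₂ →₀ ℂ) :
    (Γ₁ × Γ₂) →₀ ℂ :=
  h₁.mapDomain (fun x => (x, (0 : Γ₂))) + h₂.mapDomain (fun y => ((0 : Γ₁), y))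

/-- Moments of the finite model. -/
def S_MFIN : Prop :=
  ∀ (Q J : Type) [AddCommGroup Q] [Fintype Q] [DecidableEq Q] [AddCommGroup J] [Fintype J]
    [DecidableEq J] (h₁ : Q →₀ ℂ) (h₂ : J →₀ ℂ) (v : Q × J → ℝ) (n : ℕ),
    ((ham (fun x => h₁ x) (fun i j => h₂ (i - j)) v) ^ n) (0, 0) (0, 0)
      = mom (prodKer h₁ h₂) v n

/-- Dilated symbols. -/
def dil {d r : ℕ} (N : Fin r → ℤ) (a : C(UnitAddTorus (Fin d × Fin r), ℝ)) :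
    C(UnitAddTorus (Fin d), ℝ) where
  toFun k := a (fun i => N i.2 • k i.1)
  continuous_toFun := by fun_prop

/-- The homomorphism `(x, j) ↦ x + ∑ N j`. -/
def phiN {d r : ℕ} (N : Fin r → ℤ) : ((Fin d → ℤ) × (Fin d × Fin r → ℤ)) →+ (Fin d → ℤ) where
  toFun p := fun i => p.1 i + ∑ l, N l * p.2 (i, l)
  map_zero' := by ext i; simp
  map_add' p q := by ext i; simp [mul_add, Finset.sum_add_distrib]; ring

/-- Generic dilations are injective on finite sets. -/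
def S_INJ : Prop :=
  ∀ (d r : ℕ) (F : Finset ((Fin d → ℤ) × (Fin d × Fin r → ℤ))),
    ∃ N : Fin r → ℤ, ∀ x ∈ F, phiN N x = 0 → x = 0

/-- Symbol of a push forward kernel, and symmetry of dilated symmetric functions. -/
def S_DIL : Prop :=
  ∀ (d r : ℕ) (N : Fin r → ℤ),
    (∀ a : C(UnitAddTorus (Fin d × Fin r), ℝ), IsSym a → IsSym (dil N a)) ∧
    (∀ (h₁ : (Fin d → ℤ) →₀ ℂ) (h₂ : (Fin d × Fin r → ℤ) →₀ ℂ) (K : C(UnitAddTorus (Fin d), ℝ))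
      (a : C(UnitAddTorus (Fin d × Fin r), ℝ)), (∀ k, (K k : ℂ) = trig h₁ k) →
      (∀ k, (a k : ℂ) = trig h₂ k) →
      ∀ k, ((K + dil N a) k : ℂ) = trig ((prodKer h₁ h₂).mapDomain (phiN N)) k)

/-! ## D. The infinite model -/

/-- Uniqueness, linearity: Lipschitz dependence of the resolvent on the symbol. -/
def S_LIP : Prop :=
  ∀ (ι : Type) [Fintype ι] [DecidableEq ι] (K K' : C(UnitAddTorus ι, ℝ)) (R : ℝ), 0 < R →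
    ∀ (v : (ι → ℤ) → ℝ) (z : ℂ), 0 < z.im →
    |Jm K R v z - Jm K' R v z| ≤ ‖K - K'‖ / z.im ^ 2 ∧ 0 ≤ Jm K R v z ∧ Jm K R v z ≤ 1 / z.im

/-- Measurability. -/
def S_MEAS : Prop :=
  ∀ (ι : Type) [Fintype ι] [DecidableEq ι] (K : C(UnitAddTorus ι, ℝ)) (R : ℝ), 0 < R →
    ∀ (z : ℂ), 0 < z.im → Measurable fun v : (ι → ℤ) → ℝ => Jm K R v z

/-- Eigenfunctions make the functional large. -/
def S_EIG : Prop :=
  ∀ (ι : Type) [Fintype ι] [DecidableEq ι] (K : C(UnitAddTorus ι, ℝ)) (η B R : ℝ), 0 < η →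
    η ≤ 1 → 0 ≤ B → 0 < R → ∀ (v : (ι → ℤ) → ℝ) (E : ℝ) (u : (ι → ℤ) → ℂ), |E| ≤ B →
    HasSum (fun x => ‖u x‖ ^ 2) 1 →
    (∀ x, ∑' y, hop K (x - y) * u y + (v x : ℂ) * u x = (E : ℂ) * u x) →
    (max 0 (‖u 0‖ - (B + ‖K‖) * (1 + (‖K‖ + B + 2) / η) / R)) ^ 4 ≤ 4 * Qz K η B R v

/-- The key proposition: small symmetric perturbations make the functional small. -/
def S_KP : Prop :=
  ∀ (d : ℕ), 0 < d → ∀ (K₀ : C(UnitAddTorus (Fin d), ℝ)) (s η B R ε : ℝ), 0 < s → 0 < η →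
    η ≤ 1 → 0 ≤ B → 0 < R → 0 < ε → ∃ b : C(UnitAddTorus (Fin d), ℝ), IsSym b ∧
      ‖b‖ ≤ 2 * s ∧ ∀ (ν : Measure ℝ) [IsProbabilityMeasure ν],
      ∫ v, Qz (K₀ + b) η B R v ∂(Measure.infinitePi fun _ : Fin d → ℤ => ν)
        ≤ (10 / s) * Real.sqrt ((B + 1) * η) + ε

/-- The space of lattice symmetric kinetic energies. -/
def SymSp (d : ℕ) : Type := {f : C(UnitAddTorus (Fin d), ℝ) // IsSym f}

instance (d : ℕ) : TopologicalSpace (SymSp d) := instTopologicalSpaceSubtype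

/-- The final theorem. -/
def S_FINAL : Prop :=
  ∀ (d : ℕ), 0 < d →
    (∀ᶠ K : SymSp d in residual (SymSp d), ∀ (ν : Measure ℝ) [IsProbabilityMeasure ν],
      ∀ᵐ v ∂(Measure.infinitePi fun _ : Fin d → ℤ => ν), NoEig K.1 v) ∧
    (∀ (K₀ : C(UnitAddTorus (Fin d), ℝ)) (ε : ℝ), IsSym K₀ → 0 < ε →
      ∃ K : C(UnitAddTorus (Fin d), ℝ), IsSym K ∧ ‖K - K₀‖ < ε ∧
        ∀ (ν : Measure ℝ) [IsProbabilityMeasure ν],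
          ∀ᵐ v ∂(Measure.infinitePi fun _ : Fin d → ℤ => ν), NoEig K v)

end

end Pool.Agent.W792.GK
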