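import Pool.Agent.W792.GK.KP4
import Pool.Agent.W762.GK.Lf1
import Pool.Agent.W15.GK.Lf2
import Pool.Agent.W405.GKFp
import Pool.Agent.W261.GK.Ser
import Pool.Agent.W586.GK.LZ
import Pool.Agent.W82.GK.Cont
import Pool.Agent.W54.GKGr
import Pool.Agent.W230.GK.Allz
import Pool.Agent.W134.GK.P2
import Pool.Agent.W455.GKGrid
import Pool.Agent.W135.GK.Ti
import Pool.Agent.W736.GK.Fm
import Pool.Agent.W338.GK.Sy1
import Pool.Agent.W803.GKSy2
import Pool.Agent.W52.GKSy3
import Pool.Agent.W462.GK.Approx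
import Pool.Agent.W52.GKCoef
import Pool.Agent.W417.GK.Circ1
import Pool.Agent.W930.GK.Circ2
import Pool.Agent.W645.GKPa
import Pool.Agent.W978.GK.Mom
import Pool.Agent.W135.GK.Law
import Pool.Agent.W792.GK.T1
import Pool.Agent.W52.GKT2
import Pool.Agent.W239.GKMop
import Pool.Agent.W12.GK.Mfin
import Pool.Agent.W930.GK.Inj
import Pool.Agent.W12.GK.Dil
import Pool.Agent.W616.GKLip
import Pool.Agent.W933.GK.Meas
import Pool.Agent.W85.GK.Eig
import Pool.Agent.W174.GK.Final

namespace Pool.Agent.W792.GK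

theorem lf : S_LF := Pool.Agent.W15.GKLf2.main Pool.Agent.W762.GKLf1.main

theorem lz : S_LZ := Pool.Agent.W586.GK.main lf Pool.Agent.W405.GKFp.main Pool.Agent.W261.GK.main

theorem gr_facts : S_GR := Pool.Agent.W54.GKGr.main

theorem allz : S_ALLZ := Pool.Agent.W230.GK.main lz Pool.Agent.W82.GKCont.main gr_facts

theorem fm : S_FM := Pool.Agent.W736.GK.main allz Pool.Agent.W134.GKP2.main
  Pool.Agent.W455.GKGrid.main Pool.Agent.W135.GK.Ti.main gr_facts

theorem sy3 : S_SY3 := Pool.Agent.W52.GKSy3.main Pool.Agent.W338.GK.Sy1.main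
  Pool.Agent.W803.GKSy2.main

theorem law : S_LAW := Pool.Agent.W135.GK.Law.main Pool.Agent.W978.GKMom.main

theorem t1 : S_T1 := Pool.Agent.W792.GKT1.main

theorem t2 : S_T2 := Pool.Agent.W52.GKT2.main

theorem mop : S_MOP := Pool.Agent.W239.GKMop.main Pool.Agent.W52.GKCoef.main

theorem lip : S_LIP := Pool.Agent.W616.GKLip.main t1 t2

theorem meas : S_MEAS := Pool.Agent.W933.GK.main t1 t2

theorem eig : S_EIG := Pool.Agent.W85.GK.main t1 t2

theorem kp_all : S_KP := kp gr_facts fm sy3 Pool.Agent.W462.GK.main Pool.Agent.W417.GK.main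
  Pool.Agent.W930.GKCirc2.main Pool.Agent.W645.GKPa.main law t1 t2 mop
  Pool.Agent.W12.GK.Mfin.main Pool.Agent.W930.GKInj.main Pool.Agent.W12.GK.Dil.main lip meas

theorem final : S_FINAL := Pool.Agent.W174.GK.main kp_all lip meas eig

end Pool.Agent.W792.GK
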