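import Mathlib

/-!
Definitions for the project GK (generic kinetic energies, MP_28b024_mp).
-/

namespace Pool.Agent.W792.GK

open MeasureTheory

noncomputable section

/-- Chebyshev type polynomials: `ch c a 0 = 1`, `ch c a 1 = a`,
`ch c a (n+2) = a * ch c a (n+1) - c * ch c a n`. -/
def ch {A : Type*} [Ring A] [Algebra ℝ A] (c : ℝ) (a : A) : ℕ → A
  | 0 => 1
  | 1 => a
  | (n + 2) => a * ch c a (n + 1) - c • ch c a n

/-- The cutoff of a real number to `[-R,R]`. -/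
def clamp (R t : ℝ) : ℝ := max (-R) (min R t)

/-! ### The finite model on `Q × J`. -/

/-- Hamiltonian of the finite model: translation invariant kernel `κ` on the finite abelian
group `Q`, hermitian matrix `A` on `J`, potential `v`. -/
def ham {Q J : Type} [AddCommGroup Q] [DecidableEq Q] [DecidableEq J]
    (κ : Q → ℂ) (A : Matrix J J ℂ) (v : Q × J → ℝ) : Matrix (Q × J) (Q × J) ℂ :=
  fun p q => (if p.2 = q.2 then κ (p.1 - q.1) else 0) + (if p.1 = q.1 then A p.2 q.2 else 0)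
    + (if p = q then (v p : ℂ) else 0)

/-- The `(p,p)` block (a `Q × Q` matrix) of the resolvent of the finite model. -/
def gr {Q J : Type} [AddCommGroup Q] [Fintype Q] [DecidableEq Q] [Fintype J] [DecidableEq J]
    (κ : Q → ℂ) (A : Matrix J J ℂ) (v : Q × J → ℝ) (z : ℂ) (p : J) : Matrix Q Q ℂ :=
  fun x y => ((ham κ A v - z • (1 : Matrix (Q × J) (Q × J) ℂ))⁻¹) (x, p) (y, p)

/-- The block of the fiber operator at `p`. -/
def dd {Q J : Type} [AddCommGroup Q] [DecidableEq Q]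
    (κ : Q → ℂ) (v : Q × J → ℝ) (p : J) : Matrix Q Q ℂ :=
  fun x y => κ (x - y) + (if x = y then (v (x, p) : ℂ) else 0)

/-- Product measure on potentials. -/
def pm (Q J : Type) [Fintype Q] [Fintype J] (ν : Measure ℝ) : Measure (Q × J → ℝ) :=
  Measure.pi (fun _ => ν)

/-- Mean of the block. -/
def mg {Q J : Type} [AddCommGroup Q] [Fintype Q] [DecidableEq Q] [Fintype J] [DecidableEq J]
    (κ : Q → ℂ) (A : Matrix J J ℂ) (ν : Measure ℝ) (z : ℂ) (p : J) : Matrix Q Q ℂ :=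
  fun x y => ∫ v, gr κ A v z p x y ∂(pm Q J ν)

/-- The left defect. -/
def hL {Q J : Type} [AddCommGroup Q] [Fintype Q] [DecidableEq Q] [Fintype J] [DecidableEq J]
    (s : ℝ) (κ : Q → ℂ) (A : Matrix J J ℂ) (ν : Measure ℝ) (v : Q × J → ℝ) (z : ℂ) (p : J) :
    Matrix Q Q ℂ :=
  1 - (dd κ v p - z • (1 : Matrix Q Q ℂ) - ((s ^ 2 : ℝ) : ℂ) • mg κ A ν z p) * gr κ A v z p

/-- The right defect. -/
def hR {Q J : Type} [AddCommGroup Q] [Fintype Q] [DecidableEq Q] [Fintype J] [DecidableEq J]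
    (s : ℝ) (κ : Q → ℂ) (A : Matrix J J ℂ) (ν : Measure ℝ) (v : Q × J → ℝ) (z : ℂ) (p : J) :
    Matrix Q Q ℂ :=
  1 - gr κ A v z p * (dd κ v p - z • (1 : Matrix Q Q ℂ) - ((s ^ 2 : ℝ) : ℂ) • mg κ A ν z p)

/-- `A` is bounded by `c` in the Euclidean operator norm. -/
def OpB {n : Type} [Fintype n] (A : Matrix n n ℂ) (c : ℝ) : Prop :=
  ∀ u : n → ℂ, ∑ i, ‖(A.mulVec u) i‖ ^ 2 ≤ c ^ 2 * ∑ i, ‖u i‖ ^ 2

/-- `A` is admissible: hermitian, norm at most `3s`, entries of the first Chebyshev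
polynomials small. -/
def Adm {J : Type} [Fintype J] [DecidableEq J] (s δ : ℝ) (n₀ : ℕ) (A : Matrix J J ℂ) : Prop :=
  A.IsHermitian ∧ OpB A (3 * s) ∧ ∀ n, 1 ≤ n → n ≤ n₀ → ∀ i j, ‖ch (s ^ 2) A n i j‖ ≤ δ

/-- Entrywise `ℓ¹` size of a matrix. -/
def e1 {n : Type} [Fintype n] (A : Matrix n n ℂ) : ℝ := ∑ i, ∑ j, ‖A i j‖

/-- Spectral sampling points `k η + i η`. -/
def zk (η : ℝ) (k : ℤ) : ℂ := ⟨k * η, η⟩

/-! ### Symmetric functions on the torus and the operators on `ℓ²(ℤ^d)`. -/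

/-- Lattice symmetric functions: invariant under permutations and sign changes of coordinates. -/
def IsSym {ι : Type} [DecidableEq ι] (f : C(UnitAddTorus ι, ℝ)) : Prop :=
  (∀ σ : Equiv.Perm ι, ∀ k : UnitAddTorus ι, f (fun i => k (σ i)) = f k) ∧
  ∀ (i : ι) (k : UnitAddTorus ι), f (Function.update k i (-(k i))) = f k

/-- The hopping amplitudes (Fourier coefficients) of a real continuous symbol. -/
def hop {ι : Type} [Fintype ι] (K : C(UnitAddTorus ι, ℝ)) (x : ι → ℤ) : ℂ :=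
  UnitAddTorus.mFourierCoeff (fun k => (K k : ℂ)) x

/-- `ℓ²`. -/
abbrev l2 (Γ : Type) := lp (fun _ : Γ => ℂ) 2

/-- `T` is the translation invariant operator with symbol `K`. -/
def IsHop {ι : Type} [Fintype ι] (K : C(UnitAddTorus ι, ℝ))
    (T : l2 (ι → ℤ) →L[ℂ] l2 (ι → ℤ)) : Prop :=
  IsSelfAdjoint T ∧ ‖T‖ ≤ ‖K‖ ∧ ∀ (u : l2 (ι → ℤ)) (x : ι → ℤ),
    T u x = ∑' y, hop K (x - y) * u y

/-- `M` is multiplication by the potential `v` cut off at `R`. -/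
def IsMul {Γ : Type} (R : ℝ) (v : Γ → ℝ) (M : l2 Γ →L[ℂ] l2 Γ) : Prop :=
  IsSelfAdjoint M ∧ ‖M‖ ≤ R ∧ ∀ (u : l2 Γ) (x : Γ), M u x = (clamp R (v x) : ℂ) * u x

open Classical in
/-- The operator with symbol `K` (it exists by `S_T1`). -/
def hopOp {ι : Type} [Fintype ι] (K : C(UnitAddTorus ι, ℝ)) :
    l2 (ι → ℤ) →L[ℂ] l2 (ι → ℤ) :=
  if h : ∃ T, IsHop K T then Classical.choose h else 0

open Classical in
/-- Multiplication by the cut off potential (it exists by `S_T2`). -/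
def mulOp {Γ : Type} (R : ℝ) (v : Γ → ℝ) : l2 Γ →L[ℂ] l2 Γ :=
  if h : ∃ M, IsMul R v M then Classical.choose h else 0

/-- Imaginary part of the resolvent at the origin. -/
def Jm {ι : Type} [Fintype ι] [DecidableEq ι] (K : C(UnitAddTorus ι, ℝ)) (R : ℝ)
    (v : (ι → ℤ) → ℝ) (z : ℂ) : ℝ :=
  ((Ring.inverse (hopOp K + mulOp R v - z • (1 : l2 (ι → ℤ) →L[ℂ] l2 (ι → ℤ))))
    (lp.single 2 (0 : ι → ℤ) (1 : ℂ)) 0).im

/-- The main functional. -/
def Qz {ι : Type} [Fintype ι] [DecidableEq ι] (K : C(UnitAddTorus ι, ℝ)) (η B R : ℝ)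
    (v : (ι → ℤ) → ℝ) : ℝ :=
  η ^ 2 * ∑ k ∈ Finset.Icc (-⌈B / η⌉) ⌈B / η⌉, (Jm K R v (zk η k)) ^ 2

/-- The Anderson operator with symbol `K` and potential `v` has no eigenvalue (no cutoff). -/
def NoEig {ι : Type} [Fintype ι] (K : C(UnitAddTorus ι, ℝ)) (v : (ι → ℤ) → ℝ) : Prop :=
  ∀ (E : ℝ) (u : (ι → ℤ) → ℂ), Summable (fun x => ‖u x‖ ^ 2) →
    (∀ x, ∑' y, hop K (x - y) * u y + (v x : ℂ) * u x = (E : ℂ) * u x) → u = 0

/-! ### Trigonometric polynomials and moments -/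

/-- The trigonometric polynomial with coefficients `h`. -/
def trig {ι : Type} [Fintype ι] (h : (ι → ℤ) →₀ ℂ) : C(UnitAddTorus ι, ℂ) :=
  h.sum fun n c => c • UnitAddTorus.mFourier n

/-- One application of `h * · + w ·`. -/
def stp {Γ : Type} [AddCommGroup Γ] (h : Γ →₀ ℂ) (w : Γ → ℝ) (u : Γ → ℂ) : Γ → ℂ :=
  fun x => (h.sum fun y c => c * u (x - y)) + (w x : ℂ) * u x

open Classical in
/-- Moments at the origin. -/
def mom {Γ : Type} [AddCommGroup Γ] (h : Γ →₀ ℂ) (w : Γ → ℝ) (n : ℕ) : ℂ :=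
  ((stp h w)^[n] (fun x => if x = 0 then 1 else 0)) 0

open Classical in
/-- Ball of radius `n` for the kernel `h`. -/
def nb {Γ : Type} [AddCommGroup Γ] (h : Γ →₀ ℂ) : ℕ → Finset Γ
  | 0 => {0}
  | (n + 1) => nb h n ∪ (nb h n ×ˢ h.support).image (fun p => p.1 - p.2)

end

end Pool.Agent.W792.GK
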