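import Pool.Agent.W792.GK.Stm

namespace Pool.Agent.W792.GK

open MeasureTheory

noncomputable section

/-! ## balls in a product -/

theorem nb_prod_bound {d m : Type} [Fintype d] [Fintype m]
    (h₁ : (d → ℤ) →₀ ℂ) (h₂ : (m → ℤ) →₀ ℂ) (b₁ b₂ : ℕ)
    (H₁ : ∀ x ∈ h₁.support, ∀ i, |x i| ≤ b₁) (H₂ : ∀ x ∈ h₂.support, ∀ i, |x i| ≤ b₂) (n : ℕ) :
    ∀ x ∈ nb (prodKer h₁ h₂) n, (∀ i, |x.1 i| ≤ n * b₁) ∧ (∀ i, |x.2 i| ≤ n * b₂) := by
  classical
  induction n with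
  | zero =>
    intro x hx
    simp only [nb, Finset.mem_singleton] at hx
    subst hx
    simp
  | succ n ih =>
    intro x hx
    simp only [nb, Finset.mem_union, Finset.mem_image, Finset.mem_product] at hx
    have h1 : (0 : ℤ) ≤ b₁ := by positivity
    have h2 : (0 : ℤ) ≤ b₂ := by positivity
    rcases hx with hx | ⟨p, ⟨hp1, hp2⟩, rfl⟩
    · obtain ⟨i1, i2⟩ := ih x hx
      constructor
      · intro i
        have := i1 i
        push_cast
        nlinarith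
      · intro i
        have := i2 i
        push_cast
        nlinarith
    · obtain ⟨i1, i2⟩ := ih p.1 hp1
      have hs : p.2 ∈ (h₁.mapDomain (fun x => (x, (0 : m → ℤ)))).support ∪
          (h₂.mapDomain (fun y => ((0 : d → ℤ), y))).support :=
        Finsupp.support_add hp2
      have key : (∀ i, |p.2.1 i| ≤ b₁) ∧ (∀ i, |p.2.2 i| ≤ b₂) := by
        rcases Finset.mem_union.1 hs with hs | hs
        · have := Finsupp.mapDomain_support hs
          obtain ⟨y, hy, hyp⟩ := Finset.mem_image.1 this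
          rw [← hyp]
          exact ⟨fun i => H₁ y hy i, fun i => by simp⟩
        · have := Finsupp.mapDomain_support hs
          obtain ⟨y, hy, hyp⟩ := Finset.mem_image.1 this
          rw [← hyp]
          exact ⟨fun i => by simp, fun i => H₂ y hy i⟩
      constructor
      · intro i
        have a1 := i1 i
        have a2 := key.1 i
        have a3 : |(p.1 - p.2).1 i| ≤ |p.1.1 i| + |p.2.1 i| := by
          simpa using abs_sub (p.1.1 i) (p.2.1 i)
        push_cast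
        nlinarith
      · intro i
        have a1 := i2 i
        have a2 := key.2 i
        have a3 : |(p.1 - p.2).2 i| ≤ |p.1.2 i| + |p.2.2 i| := by
          simpa using abs_sub (p.1.2 i) (p.2.2 i)
        push_cast
        nlinarith

theorem exists_supp_bound {d : Type} [Fintype d] (h : (d → ℤ) →₀ ℂ) :
    ∃ b : ℕ, ∀ x ∈ h.support, ∀ i, |x i| ≤ b := by
  classical
  refine ⟨∑ x ∈ h.support, ∑ i, (x i).natAbs, fun x hx i => ?_⟩
  have h1 : (x i).natAbs ≤ ∑ i, (x i).natAbs :=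
    Finset.single_le_sum (f := fun i => (x i).natAbs) (fun _ _ => Nat.zero_le _) (Finset.mem_univ i)
  have h2 : ∑ i, (x i).natAbs ≤ ∑ x ∈ h.support, ∑ i, (x i).natAbs :=
    Finset.single_le_sum (f := fun x : d → ℤ => ∑ i, (x i).natAbs) (fun _ _ => Nat.zero_le _) hx
  have h3 : |x i| = ((x i).natAbs : ℤ) := (Int.natCast_natAbs (x i)).symm
  rw [h3]
  exact_mod_cast h1.trans h2

/-- The cast homomorphism. -/
def castHom (d : Type) (ℓ : ℕ) : (d → ℤ) →+ (d → ZMod ℓ) where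
  toFun n := fun i => ((n i : ℤ) : ZMod ℓ)
  map_zero' := by ext i; simp
  map_add' x y := by ext i; simp

theorem castHom_inj {d : Type} (ℓ : ℕ) (b : ℕ) (hb : 2 * b < ℓ) (x y : d → ℤ)
    (hx : ∀ i, |x i| ≤ b) (hy : ∀ i, |y i| ≤ b) (h : castHom d ℓ x = castHom d ℓ y) : x = y := by
  ext i
  have h1 : ((x i : ℤ) : ZMod ℓ) = ((y i : ℤ) : ZMod ℓ) := congrFun h i
  have h2 : ((x i - y i : ℤ) : ZMod ℓ) = 0 := by
    rw [Int.cast_sub, h1, sub_self]
  have h3 : (ℓ : ℤ) ∣ x i - y i := (ZMod.intCast_zmod_eq_zero_iff_dvd _ _).1 h2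
  have h4 : |x i - y i| < ℓ := by
    have a1 := hx i
    have a2 := hy i
    have a3 := abs_sub (x i) (y i)
    have a4 : (2 * b : ℤ) < ℓ := by exact_mod_cast hb
    linarith
  have h5 := Int.eq_zero_of_abs_lt_dvd h3 h4
  linarith

/-- The combined homomorphism to the finite group. -/
def phiF {d m : Type} (ℓ ℓ' : ℕ) : ((d → ℤ) × (m → ℤ)) →+ ((d → ZMod ℓ) × (m → ZMod ℓ')) :=
  (castHom d ℓ).prodMap (castHom m ℓ')

theorem phiF_inj {d m : Type} [Fintype d] [Fintype m]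
    (h₁ : (d → ℤ) →₀ ℂ) (h₂ : (m → ℤ) →₀ ℂ) (b₁ b₂ : ℕ)
    (H₁ : ∀ x ∈ h₁.support, ∀ i, |x i| ≤ b₁) (H₂ : ∀ x ∈ h₂.support, ∀ i, |x i| ≤ b₂) (n : ℕ)
    (ℓ ℓ' : ℕ) (hl : 2 * (n * b₁) < ℓ) (hl' : 2 * (n * b₂) < ℓ') :
    ∀ x ∈ nb (prodKer h₁ h₂) n, ∀ y ∈ nb (prodKer h₁ h₂) n,
      phiF (d := d) (m := m) ℓ ℓ' x = phiF ℓ ℓ' y → x = y := by
  intro x hx y hy h
  obtain ⟨x1, x2⟩ := nb_prod_bound h₁ h₂ b₁ b₂ H₁ H₂ n x hx
  obtain ⟨y1, y2⟩ := nb_prod_bound h₁ h₂ b₁ b₂ H₁ H₂ n y hy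
  have e1 : castHom d ℓ x.1 = castHom d ℓ y.1 := congrArg Prod.fst h
  have e2 : castHom m ℓ' x.2 = castHom m ℓ' y.2 := congrArg Prod.snd h
  refine Prod.ext ?_ ?_
  · exact castHom_inj ℓ (n * b₁) hl _ _ (by exact_mod_cast x1) (by exact_mod_cast y1) e1
  · exact castHom_inj ℓ' (n * b₂) hl' _ _ (by exact_mod_cast x2) (by exact_mod_cast y2) e2

theorem mapDomain_prodKer {Γ₁ Γ₂ Δ₁ Δ₂ : Type} [AddCommGroup Γ₁] [AddCommGroup Γ₂]
    [AddCommGroup Δ₁] [AddCommGroup Δ₂] (f : Γ₁ →+ Δ₁) (g : Γ₂ →+ Δ₂)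
    (h₁ : Γ₁ →₀ ℂ) (h₂ : Γ₂ →₀ ℂ) :
    (prodKer h₁ h₂).mapDomain (f.prodMap g) = prodKer (h₁.mapDomain f) (h₂.mapDomain g) := by
  unfold prodKer
  rw [Finsupp.mapDomain_add, ← Finsupp.mapDomain_comp, ← Finsupp.mapDomain_comp,
    ← Finsupp.mapDomain_comp, ← Finsupp.mapDomain_comp]
  congr 2
  · ext x
    · simp
    · simp
  · ext x
    · simp
    · simp

/-! ## hermitian kernels -/

theorem mapDomain_herm {Γ Δ : Type} [AddCommGroup Γ] [AddCommGroup Δ] (f : Γ →+ Δ) (h : Γ →₀ ℂ)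
    (hh : ∀ n, h (-n) = (starRingEnd ℂ) (h n)) (x : Δ) :
    (h.mapDomain f) (-x) = (starRingEnd ℂ) ((h.mapDomain f) x) := by
  classical
  have key : ∀ y : Δ, (h.mapDomain f) y = ∑ n ∈ h.support, if f n = y then h n else 0 := by
    intro y
    rw [Finsupp.mapDomain, Finsupp.sum, Finsupp.finset_sum_apply]
    refine Finset.sum_congr rfl fun n _ => ?_
    rw [Finsupp.single_apply]
  rw [key, key, map_sum]
  refine Finset.sum_bij' (fun n _ => -n) (fun n _ => -n) ?_ ?_ ?_ ?_ ?_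
  · intro n hn
    rw [Finsupp.mem_support_iff] at hn ⊢
    rw [hh]
    simpa using hn
  · intro n hn
    rw [Finsupp.mem_support_iff] at hn ⊢
    rw [hh]
    simpa using hn
  · intro n _
    simp
  · intro n _
    simp
  · intro n _
    rw [map_neg]
    by_cases h1 : f n = -x
    · rw [if_pos h1, if_pos (by rw [h1]; simp), hh]
      simp
    · rw [if_neg h1, if_neg (fun h2 => h1 (by rw [← h2]; simp))]
      simp

end

end Pool.Agent.W792.GK
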