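import Pool.Agent.W792.GK.Stm

namespace Pool.Agent.W792.GK

open MeasureTheory

noncomputable section

/-- The property of the polynomials of `S_PA`. -/
def PAp (C : ℝ) (z : ℂ) (ε : ℝ) (P : Polynomial ℂ) : Prop :=
  ∀ (E : Type) [NormedAddCommGroup E] [InnerProductSpace ℂ E] [CompleteSpace E]
      (T : E →L[ℂ] E), IsSelfAdjoint T → ‖T‖ ≤ C →
      IsUnit (T - z • (1 : E →L[ℂ] E)) ∧
      ‖Ring.inverse (T - z • (1 : E →L[ℂ] E)) - Polynomial.aeval T P‖ ≤ ε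

/-- Linear combination of moments. -/
def Pmom (P : Polynomial ℂ) (n : ℕ) (f : Fin (n + 1) → ℂ) : ℂ :=
  ∑ m : Fin (n + 1), P.coeff m * f m

theorem Pmom_eq (P : Polynomial ℂ) (n : ℕ) (hn : P.natDegree ≤ n) {A : Type} [Ring A]
    [Algebra ℂ A] (a : A) (L : A →ₗ[ℂ] ℂ) :
    L (Polynomial.aeval a P) = Pmom P n (fun m => L (a ^ (m : ℕ))) := by
  rw [Polynomial.aeval_eq_sum_range' (Nat.lt_succ_of_le hn), map_sum, Pmom,
    ← Fin.sum_univ_eq_sum_range (fun i => L (P.coeff i • a ^ i))]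
  refine Finset.sum_congr rfl fun m _ => ?_
  rw [map_smul, smul_eq_mul]

/-! ## finite matrices -/

section fin

variable {n : Type} [Fintype n] [DecidableEq n]

theorem norm_toCLM_le (H : Matrix n n ℂ) (C : ℝ) (hC : 0 ≤ C) (h : OpB H C) :
    ‖Matrix.toEuclideanCLM (𝕜 := ℂ) H‖ ≤ C := by
  refine ContinuousLinearMap.opNorm_le_bound _ hC fun u => ?_
  have h1 := h (fun i => u i)
  have e1 : ‖(Matrix.toEuclideanCLM (𝕜 := ℂ) H) u‖ ^ 2 = ∑ i, ‖(H.mulVec (fun i => u i)) i‖ ^ 2 := by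
    rw [EuclideanSpace.norm_sq_eq]
    rfl
  have e2 : ‖u‖ ^ 2 = ∑ i, ‖u i‖ ^ 2 := EuclideanSpace.norm_sq_eq u
  rw [← e1, ← e2] at h1
  have h2 : ‖(Matrix.toEuclideanCLM (𝕜 := ℂ) H) u‖ ^ 2 ≤ (C * ‖u‖) ^ 2 := by
    rw [mul_pow]; exact h1
  exact le_of_sq_le_sq h2 (by positivity)

/-- Entry functional. -/
def entL (i j : n) : Matrix n n ℂ →ₗ[ℂ] ℂ where
  toFun M := M i j
  map_add' _ _ := rfl
  map_smul' _ _ := rfl

theorem entry_le_norm (M : Matrix n n ℂ) (i j : n) :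
    ‖M i j‖ ≤ ‖Matrix.toEuclideanCLM (𝕜 := ℂ) M‖ := by
  have h1 := (Matrix.toEuclideanCLM (𝕜 := ℂ) M).le_opNorm (EuclideanSpace.single j (1 : ℂ))
  rw [EuclideanSpace.norm_single, norm_one, mul_one] at h1
  have h2 : ‖((Matrix.toEuclideanCLM (𝕜 := ℂ) M) (EuclideanSpace.single j (1 : ℂ))) i‖ ≤
      ‖(Matrix.toEuclideanCLM (𝕜 := ℂ) M) (EuclideanSpace.single j (1 : ℂ))‖ :=
    PiLp.norm_apply_le _ i
  have h3 : ((Matrix.toEuclideanCLM (𝕜 := ℂ) M) (EuclideanSpace.single j (1 : ℂ))) i = M i j := by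
    have : ((Matrix.toEuclideanCLM (𝕜 := ℂ) M) (EuclideanSpace.single j (1 : ℂ))) i
      = (M.mulVec (Pi.single j (1 : ℂ))) i := rfl
    rw [this, Matrix.mulVec_single_one]
    rfl
  rw [h3] at h2
  exact h2.trans h1

theorem fin_approx (H : Matrix n n ℂ) (hH : H.IsHermitian) (C : ℝ) (hC : 0 ≤ C) (h : OpB H C)
    (z : ℂ) (ε : ℝ) (P : Polynomial ℂ) (hP : PAp C z ε P) (N : ℕ) (hN : P.natDegree ≤ N) (i j : n) :
    ‖((H - z • (1 : Matrix n n ℂ))⁻¹) i j - Pmom P N (fun m => (H ^ (m : ℕ)) i j)‖ ≤ ε := by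
  set φ := Matrix.toEuclideanCLM (𝕜 := ℂ) (n := n) with hφ
  have hsa : IsSelfAdjoint (φ H) := by
    rw [IsSelfAdjoint, ← map_star]
    congr 1
  obtain ⟨hu, ha⟩ := hP (EuclideanSpace ℂ n) (φ H) hsa (norm_toCLM_le H C hC h)
  have e0 : φ H - z • (1 : EuclideanSpace ℂ n →L[ℂ] EuclideanSpace ℂ n) =
      φ (H - z • (1 : Matrix n n ℂ)) := by
    rw [map_sub, map_smul, map_one]
  have hu' : IsUnit (H - z • (1 : Matrix n n ℂ)) := by
    rw [e0] at hu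
    exact (MulEquiv.isUnit_map (φ : Matrix n n ℂ ≃⋆ₐ[ℂ] _)).1 hu
  have e1 : Ring.inverse (φ H - z • (1 : EuclideanSpace ℂ n →L[ℂ] EuclideanSpace ℂ n)) =
      φ ((H - z • (1 : Matrix n n ℂ))⁻¹) := by
    rw [e0]
    have h1 : φ (H - z • (1 : Matrix n n ℂ)) * φ ((H - z • (1 : Matrix n n ℂ))⁻¹) = 1 := by
      rw [← map_mul, Matrix.mul_nonsing_inv _ ((Matrix.isUnit_iff_isUnit_det _).1 hu'), map_one]
    have h2 : Ring.inverse (φ (H - z • (1 : Matrix n n ℂ))) * φ (H - z • (1 : Matrix n n ℂ)) = 1 :=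
      Ring.inverse_mul_cancel _ (e0 ▸ hu)
    calc Ring.inverse (φ (H - z • (1 : Matrix n n ℂ)))
        = Ring.inverse (φ (H - z • (1 : Matrix n n ℂ))) *
          (φ (H - z • (1 : Matrix n n ℂ)) * φ ((H - z • (1 : Matrix n n ℂ))⁻¹)) := by
            rw [h1, mul_one]
      _ = φ ((H - z • (1 : Matrix n n ℂ))⁻¹) := by rw [← mul_assoc, h2, one_mul]
  have e2 : Polynomial.aeval (φ H) P = φ (Polynomial.aeval H P) := by
    rw [Polynomial.aeval_eq_sum_range, Polynomial.aeval_eq_sum_range, map_sum]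
    refine Finset.sum_congr rfl fun m _ => ?_
    rw [map_smul, map_pow]
  rw [e1, e2, ← map_sub] at ha
  have h3 := (entry_le_norm ((H - z • (1 : Matrix n n ℂ))⁻¹ - Polynomial.aeval H P) i j).trans ha
  have h4 := Pmom_eq P N hN H (entL i j)
  have h5 : (entL i j) (Polynomial.aeval H P) = (Polynomial.aeval H P) i j := rfl
  rw [h5] at h4
  have h6 : (fun m : Fin (N + 1) => (entL i j) (H ^ (m : ℕ))) =
      fun m : Fin (N + 1) => (H ^ (m : ℕ)) i j := rfl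
  rw [h6] at h4
  rw [← h4]
  exact h3

end fin

/-! ## the infinite model -/

theorem hopOp_spec (hT1 : S_T1) {ι : Type} [Fintype ι] (K : C(UnitAddTorus ι, ℝ)) :
    IsHop K (hopOp K) := by
  unfold hopOp
  rw [dif_pos (hT1 ι K)]
  exact Classical.choose_spec (hT1 ι K)

theorem mulOp_spec (hT2 : S_T2) {Γ : Type} (R : ℝ) (hR : 0 < R) (v : Γ → ℝ) :
    IsMul R v (mulOp R v) := by
  unfold mulOp
  rw [dif_pos (hT2 Γ R hR v)]
  exact Classical.choose_spec (hT2 Γ R hR v)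

theorem inf_approx (hT1 : S_T1) (hT2 : S_T2) (hM : S_MOP) {ι : Type} [Fintype ι] [DecidableEq ι]
    (h : (ι → ℤ) →₀ ℂ) (K : C(UnitAddTorus ι, ℝ)) (hK : ∀ k, (K k : ℂ) = trig h k)
    (R : ℝ) (hR : 0 < R) (C : ℝ) (hC : ‖K‖ + R ≤ C) (z : ℂ) (ε : ℝ) (P : Polynomial ℂ)
    (hP : PAp C z ε P) (N : ℕ) (hN : P.natDegree ≤ N) (v : (ι → ℤ) → ℝ) :
    |Jm K R v z - (Pmom P N (fun m => mom h (fun x => clamp R (v x)) m)).im| ≤ ε := by
  obtain ⟨s1, n1, k1⟩ := hopOp_spec hT1 K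
  obtain ⟨s2, n2, k2⟩ := mulOp_spec hT2 R hR v
  set H := hopOp K + mulOp R v with hH
  obtain ⟨hu, ha⟩ := hP (l2 (ι → ℤ)) H (s1.add s2)
    ((norm_add_le _ _).trans ((add_le_add n1 n2).trans hC))
  set e : l2 (ι → ℤ) := lp.single 2 (0 : ι → ℤ) (1 : ℂ) with he
  have hne : ‖e‖ = 1 := by
    rw [he, lp.norm_single (by norm_num)]
    simp
  set L : (l2 (ι → ℤ) →L[ℂ] l2 (ι → ℤ)) →ₗ[ℂ] ℂ :=
    { toFun := fun A => (A e) 0
      map_add' := fun A B => rfl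
      map_smul' := fun c A => rfl } with hL
  have hLn : ∀ A : l2 (ι → ℤ) →L[ℂ] l2 (ι → ℤ), ‖L A‖ ≤ ‖A‖ := by
    intro A
    have h1 : ‖(A e) 0‖ ≤ ‖A e‖ := lp.norm_apply_le_norm (by norm_num) _ _
    have h2 : ‖A e‖ ≤ ‖A‖ * ‖e‖ := A.le_opNorm e
    rw [hne, mul_one] at h2
    exact h1.trans h2
  have h4 := Pmom_eq P N hN H L
  have h5 : (fun m : Fin (N + 1) => L (H ^ (m : ℕ))) =
      fun m : Fin (N + 1) => mom h (fun x => clamp R (v x)) m := by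
    funext m
    exact hM ι h K hK (hopOp K) ⟨s1, n1, k1⟩ R v (mulOp R v) ⟨s2, n2, k2⟩ m
  rw [h5] at h4
  rw [← h4]
  have h6 : Jm K R v z = (L (Ring.inverse (H - z • (1 : l2 (ι → ℤ) →L[ℂ] l2 (ι → ℤ))))).im := rfl
  rw [h6, ← Complex.sub_im, ← map_sub]
  exact (Complex.abs_im_le_norm _).trans ((hLn _).trans ha)

end

end Pool.Agent.W792.GK
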