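import Pool.Agent.W792.GK.KP1
import Pool.Agent.W792.GK.KP2

namespace Pool.Agent.W792.GK

open MeasureTheory

noncomputable section

local instance : MeasureSpace UnitAddCircle := ⟨AddCircle.haarAddCircle⟩

local instance : Measure.IsAddHaarMeasure (volume : Measure UnitAddCircle) :=
  inferInstanceAs (Measure.IsAddHaarMeasure AddCircle.haarAddCircle)

local instance : IsProbabilityMeasure (volume : Measure UnitAddCircle) :=
  inferInstanceAs (IsProbabilityMeasure AddCircle.haarAddCircle)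

theorem ch_cont (c : ℝ) : ∀ n : ℕ, Continuous (fun x : ℝ => ch c x n) ∧
    Continuous (fun x : ℝ => ch c x (n + 1)) := by
  intro n
  induction n with
  | zero =>
    refine ⟨?_, ?_⟩
    · simp only [ch]; exact continuous_const
    · simp only [ch]; exact continuous_id
  | succ n ih =>
    refine ⟨ih.2, ?_⟩
    have : (fun x : ℝ => ch c x (n + 1 + 1)) = fun x => x * ch c x (n + 1) - c • ch c x n := by
      funext x
      rw [show n + 1 + 1 = n + 2 from rfl, ch]
    rw [this]
    exact (continuous_id.mul ih.2).sub (ih.1.const_smul c)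

theorem ch_close (c r δ : ℝ) (hδ : 0 < δ) (n₀ : ℕ) : ∃ ε : ℝ, 0 < ε ∧ ∀ n ≤ n₀, ∀ x y : ℝ,
    |x| ≤ r → |y| ≤ r → |x - y| ≤ ε → |ch c x n - ch c y n| ≤ δ := by
  have key : ∀ n : ℕ, ∃ ε : ℝ, 0 < ε ∧ ∀ x y : ℝ, |x| ≤ r → |y| ≤ r → |x - y| ≤ ε →
      |ch c x n - ch c y n| ≤ δ := by
    intro n
    have hc : IsCompact (Set.Icc (-r) r) := isCompact_Icc
    have hu := hc.uniformContinuousOn_of_continuous ((ch_cont c n).1.continuousOn)
    rw [Metric.uniformContinuousOn_iff] at hu
    obtain ⟨ε, hε, H⟩ := hu δ hδ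
    refine ⟨ε / 2, by positivity, fun x y hx hy hxy => ?_⟩
    have h1 := H x (abs_le.1 hx) y (abs_le.1 hy) (by rw [Real.dist_eq]; linarith)
    rw [Real.dist_eq] at h1
    exact h1.le
  choose e he H using key
  have hne : (Finset.range (n₀ + 1)).Nonempty := ⟨0, by simp⟩
  refine ⟨(Finset.range (n₀ + 1)).inf' hne e, ?_, fun n hn x y hx hy hxy => ?_⟩
  · rw [Finset.lt_inf'_iff]
    exact fun i _ => he i
  · exact H n x y hx hy (hxy.trans (Finset.inf'_le _ (Finset.mem_range.2 (by omega))))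

theorem coef_close {ι : Type} [Fintype ι] (F G : UnitAddTorus ι → ℂ) (hF : Continuous F)
    (hG : Continuous G) (δ : ℝ) (h : ∀ k, ‖F k - G k‖ ≤ δ) (γ : ι → ℤ) :
    ‖UnitAddTorus.mFourierCoeff F γ - UnitAddTorus.mFourierCoeff G γ‖ ≤ δ := by
  have hi : ∀ f : UnitAddTorus ι → ℂ, Continuous f →
      Integrable (fun t => UnitAddTorus.mFourier (-γ) t • f t) volume := by
    intro f hf
    have hc : Continuous (fun t => UnitAddTorus.mFourier (-γ) t • f t) :=
      (UnitAddTorus.mFourier (-γ)).continuous.smul hf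
    have := hc.continuousOn.integrableOn_compact (μ := volume) (isCompact_univ)
    rwa [integrableOn_univ] at this
  have h1 : UnitAddTorus.mFourierCoeff F γ - UnitAddTorus.mFourierCoeff G γ =
      ∫ t, (UnitAddTorus.mFourier (-γ) t • F t - UnitAddTorus.mFourier (-γ) t • G t) := by
    rw [integral_sub (hi F hF) (hi G hG)]
    rfl
  rw [h1]
  have h2 : ∀ t, ‖UnitAddTorus.mFourier (-γ) t • F t - UnitAddTorus.mFourier (-γ) t • G t‖ ≤ δ := by
    intro t
    rw [← smul_sub, norm_smul]
    have h3 : ‖UnitAddTorus.mFourier (-γ) t‖ ≤ 1 := by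
      have := (UnitAddTorus.mFourier (-γ)).norm_coe_le_norm t
      rwa [UnitAddTorus.mFourier_norm] at this
    calc ‖UnitAddTorus.mFourier (-γ) t‖ * ‖F t - G t‖ ≤ 1 * δ :=
          mul_le_mul h3 (h t) (norm_nonneg _) zero_le_one
      _ = δ := one_mul _
  have h4 := norm_integral_le_of_norm_le_const (μ := (volume : Measure (UnitAddTorus ι)))
    (Filter.Eventually.of_forall h2)
  simpa using h4

/-! ## the finite Hamiltonian -/

theorem opB_of_norm {n : Type} [Fintype n] [DecidableEq n] (H : Matrix n n ℂ) :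
    OpB H ‖Matrix.toEuclideanCLM (𝕜 := ℂ) H‖ := by
  intro u
  have h1 := (Matrix.toEuclideanCLM (𝕜 := ℂ) H).le_opNorm (WithLp.toLp 2 u)
  have e1 : ‖(Matrix.toEuclideanCLM (𝕜 := ℂ) H) (WithLp.toLp 2 u)‖ ^ 2 =
      ∑ i, ‖(H.mulVec u) i‖ ^ 2 := by
    rw [EuclideanSpace.norm_sq_eq]
    rfl
  have e2 : ‖(WithLp.toLp 2 u : EuclideanSpace ℂ n)‖ ^ 2 = ∑ i, ‖u i‖ ^ 2 :=
    EuclideanSpace.norm_sq_eq _
  rw [← e1, ← e2, ← mul_pow]
  exact pow_le_pow_left₀ (norm_nonneg _) h1 2

theorem opB_add {n : Type} [Fintype n] [DecidableEq n] (A B : Matrix n n ℂ) (a b : ℝ)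
    (ha : 0 ≤ a) (hb : 0 ≤ b) (hA : OpB A a) (hB : OpB B b) : OpB (A + B) (a + b) := by
  have h1 := norm_toCLM_le A a ha hA
  have h2 := norm_toCLM_le B b hb hB
  have h3 : ‖Matrix.toEuclideanCLM (𝕜 := ℂ) (A + B)‖ ≤ a + b := by
    rw [map_add]
    exact (norm_add_le _ _).trans (add_le_add h1 h2)
  intro u
  refine (opB_of_norm (A + B) u).trans ?_
  gcongr

theorem ham_opB {Q J : Type} [AddCommGroup Q] [Fintype Q] [DecidableEq Q] [Fintype J]
    [DecidableEq J] (κ : Q → ℂ) (A : Matrix J J ℂ) (v : Q × J → ℝ) (c₁ c₂ c₃ : ℝ)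
    (h1 : 0 ≤ c₁) (h2 : 0 ≤ c₂) (h3 : 0 ≤ c₃) (H1 : OpB (fun x y : Q => κ (x - y)) c₁)
    (H2 : OpB A c₂) (H3 : ∀ p, |v p| ≤ c₃) : OpB (ham κ A v) (c₁ + c₂ + c₃) := by
  have e : ham κ A v = (Matrix.of fun p q : Q × J => if p.2 = q.2 then κ (p.1 - q.1) else 0)
      + (Matrix.of fun p q : Q × J => if p.1 = q.1 then A p.2 q.2 else 0)
      + Matrix.diagonal (fun p => (v p : ℂ)) := by
    ext p q
    simp only [ham, Matrix.add_apply, Matrix.of_apply, Matrix.diagonal_apply]
  rw [e]
  refine opB_add _ _ _ _ (by positivity) h3 (opB_add _ _ _ _ h1 h2 ?_ ?_) ?_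
  · intro u
    have k1 : ∀ p : Q × J, ((Matrix.of fun p q : Q × J =>
        if p.2 = q.2 then κ (p.1 - q.1) else 0).mulVec u) p =
        (Matrix.mulVec (fun x y : Q => κ (x - y)) (fun y => u (y, p.2))) p.1 := by
      intro p
      simp only [Matrix.mulVec, dotProduct, Matrix.of_apply, Fintype.sum_prod_type]
      refine Finset.sum_congr rfl fun y _ => ?_
      rw [Finset.sum_eq_single p.2]
      · simp
      · intro j _ hj
        rw [if_neg (Ne.symm hj), zero_mul]
      · intro h; exact absurd (Finset.mem_univ _) h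
    simp_rw [k1]
    rw [Fintype.sum_prod_type_right, Fintype.sum_prod_type_right, Finset.mul_sum]
    exact Finset.sum_le_sum fun j _ => H1 (fun y => u (y, j))
  · intro u
    have k1 : ∀ p : Q × J, ((Matrix.of fun p q : Q × J =>
        if p.1 = q.1 then A p.2 q.2 else 0).mulVec u) p =
        (Matrix.mulVec A (fun j => u (p.1, j))) p.2 := by
      intro p
      simp only [Matrix.mulVec, dotProduct, Matrix.of_apply, Fintype.sum_prod_type]
      rw [Finset.sum_eq_single p.1]
      · simp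
      · intro j _ hj
        simp [Ne.symm hj]
      · intro h; exact absurd (Finset.mem_univ _) h
    simp_rw [k1]
    rw [Fintype.sum_prod_type, Fintype.sum_prod_type, Finset.mul_sum]
    exact Finset.sum_le_sum fun x _ => H2 (fun j => u (x, j))
  · intro u
    rw [Finset.mul_sum]
    refine Finset.sum_le_sum fun p _ => ?_
    rw [Matrix.mulVec_diagonal, norm_mul, mul_pow]
    have : ‖(v p : ℂ)‖ ≤ c₃ := by
      rw [Complex.norm_real]; exact H3 p
    gcongr

theorem ham_herm {Q J : Type} [AddCommGroup Q] [Fintype Q] [DecidableEq Q] [Fintype J]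
    [DecidableEq J] (κ : Q → ℂ) (hκ : ∀ x, κ (-x) = (starRingEnd ℂ) (κ x)) (A : Matrix J J ℂ)
    (hA : A.IsHermitian) (v : Q × J → ℝ) : (ham κ A v).IsHermitian := by
  ext p q
  simp only [Matrix.conjTranspose_apply, ham]
  rw [star_add, star_add]
  have a1 : star (if q.2 = p.2 then κ (q.1 - p.1) else 0) = if p.2 = q.2 then κ (p.1 - q.1) else 0 := by
    by_cases h : p.2 = q.2
    · rw [if_pos h, if_pos h.symm, ← neg_sub p.1 q.1, hκ]
      simp
    · rw [if_neg h, if_neg (Ne.symm h), star_zero]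
  have a2 : star (if q.1 = p.1 then A q.2 p.2 else 0) = if p.1 = q.1 then A p.2 q.2 else 0 := by
    by_cases h : p.1 = q.1
    · rw [if_pos h, if_pos h.symm]
      exact hA.apply p.2 q.2
    · rw [if_neg h, if_neg (Ne.symm h), star_zero]
  have a3 : star (if q = p then (v q : ℂ) else 0) = if p = q then (v p : ℂ) else 0 := by
    by_cases h : p = q
    · rw [if_pos h, if_pos h.symm, h]
      simp
    · rw [if_neg h, if_neg (Ne.symm h), star_zero]
  rw [a1, a2, a3]

theorem gr_meas {Q J : Type} [AddCommGroup Q] [Fintype Q] [DecidableEq Q] [Fintype J]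
    [DecidableEq J] (κ : Q → ℂ) (A : Matrix J J ℂ) (z : ℂ) (p : J) (x y : Q) :
    Measurable fun v : Q × J → ℝ => gr κ A v z p x y := by
  have hc : Continuous fun v : Q × J → ℝ => (ham κ A v - z • (1 : Matrix (Q × J) (Q × J) ℂ)) := by
    refine continuous_matrix fun i j => ?_
    simp only [ham, Matrix.sub_apply]
    refine Continuous.sub (Continuous.add continuous_const ?_) continuous_const
    by_cases h : i = j
    · simp only [h, if_true]
      exact Complex.continuous_ofReal.comp (continuous_apply j)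
    · simp only [h, if_false]
      exact continuous_const
  have e : (fun v : Q × J → ℝ => gr κ A v z p x y) = fun v =>
      ((ham κ A v - z • (1 : Matrix (Q × J) (Q × J) ℂ)).det)⁻¹ *
        (ham κ A v - z • (1 : Matrix (Q × J) (Q × J) ℂ)).adjugate (x, p) (y, p) := by
    funext v
    simp only [gr, Matrix.inv_def, Matrix.smul_apply, Ring.inverse_eq_inv', smul_eq_mul]
  rw [e]
  have h1 : Measurable fun v : Q × J → ℝ =>
      (ham κ A v - z • (1 : Matrix (Q × J) (Q × J) ℂ)).det := (hc.matrix_det).measurable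
  have h2 : Measurable fun v : Q × J → ℝ =>
      (ham κ A v - z • (1 : Matrix (Q × J) (Q × J) ℂ)).adjugate (x, p) (y, p) :=
    ((hc.matrix_adjugate).matrix_elem _ _).measurable
  exact h1.inv.mul h2

end

end Pool.Agent.W792.GK
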