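import Pool.Agent.W792.GK.KP3

namespace Pool.Agent.W792.GK

open MeasureTheory

noncomputable section

theorem abs_sq_sub_sq_le (x y M e : ℝ) (hx : |x| ≤ M) (h : |x - y| ≤ e) :
    |x ^ 2 - y ^ 2| ≤ e * (2 * M + e) := by
  have h1 : x ^ 2 - y ^ 2 = (x - y) * (2 * x - (x - y)) := by ring
  rw [h1, abs_mul]
  have h2 : |2 * x - (x - y)| ≤ 2 * M + e := by
    refine (abs_sub _ _).trans ?_
    rw [abs_mul, abs_two]
    linarith
  exact mul_le_mul h h2 (abs_nonneg _) ((abs_nonneg _).trans h)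

theorem clamp_abs (R t : ℝ) (hR : 0 < R) : |clamp R t| ≤ R := by
  unfold clamp
  rw [abs_le]
  constructor
  · exact le_max_left _ _
  · exact max_le (by linarith) (min_le_left _ _)

theorem clamp_meas (R : ℝ) : Measurable (clamp R) := by
  unfold clamp
  exact measurable_const.max (measurable_const.min measurable_id)

theorem map_clamp_supp (R : ℝ) (hR : 0 < R) (ν : Measure ℝ) :
    (ν.map (clamp R)) (Set.Icc (-R) R)ᶜ = 0 := by
  rw [Measure.map_apply (clamp_meas R) (measurableSet_Icc.compl)]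
  have : (clamp R) ⁻¹' (Set.Icc (-R) R)ᶜ = ∅ := by
    ext t
    simp only [Set.mem_preimage, Set.mem_compl_iff, Set.mem_empty_iff_false, iff_false, not_not]
    exact abs_le.1 (clamp_abs R t hR)
  rw [this, measure_empty]

/-- The integral of the finite functional with the cut off potential. -/
theorem fin_int {Q J : Type} [AddCommGroup Q] [Fintype Q] [DecidableEq Q] [Fintype J]
    [DecidableEq J] (κ : Q → ℂ) (A : Matrix J J ℂ) (η B R : ℝ) (p : J) (ν : Measure ℝ)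
    [IsProbabilityMeasure ν] :
    ∫ v, Qf κ A η B v p ∂(pm Q J (ν.map (clamp R))) =
      ∫ v, Qf κ A η B (fun x => clamp R (v x)) p ∂(pm Q J ν) := by
  haveI : IsProbabilityMeasure (ν.map (clamp R)) :=
    Measure.isProbabilityMeasure_map (clamp_meas R).aemeasurable
  have e : pm Q J (ν.map (clamp R)) = (pm Q J ν).map (fun v x => clamp R (v x)) := by
    unfold pm
    exact (Measure.pi_map_pi (μ := fun _ : Q × J => ν) (f := fun _ => clamp R)
      (fun _ => (clamp_meas R).aemeasurable)).symm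
  have hm : Measurable fun v : Q × J → ℝ => (fun x => clamp R (v x)) :=
    measurable_pi_lambda _ fun x => (clamp_meas R).comp (measurable_pi_apply x)
  rw [e, integral_map hm.aemeasurable]
  refine Measurable.aestronglyMeasurable ?_
  unfold Qf
  refine Measurable.const_mul ?_ _
  refine Finset.measurable_sum _ fun k _ => ?_
  exact (Complex.measurable_im.comp (gr_meas κ A _ p 0 0)).pow_const 2

theorem mom_meas {Γ : Type} [AddCommGroup Γ] (h : Γ →₀ ℂ) (R : ℝ) (m : ℕ) :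
    Measurable fun v : Γ → ℝ => mom h (fun x => clamp R (v x)) m := by
  classical
  have key : ∀ (m : ℕ) (x : Γ), Measurable fun v : Γ → ℝ =>
      ((stp h (fun x => clamp R (v x)))^[m] (fun x => if x = 0 then (1 : ℂ) else 0)) x := by
    intro m
    induction m with
    | zero =>
      intro x
      simp only [Function.iterate_zero, id]
      exact measurable_const
    | succ m ih =>
      intro x
      simp only [Function.iterate_succ_apply']
      unfold stp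
      refine Measurable.add ?_ ?_
      · unfold Finsupp.sum
        refine Finset.measurable_sum _ fun y _ => ?_
        exact (ih (x - y)).const_mul _
      · refine Measurable.mul ?_ (ih x)
        exact Complex.measurable_ofReal.comp ((clamp_meas R).comp (measurable_pi_apply x))
  exact key m 0

theorem kp (hGR : S_GR) (hFM : S_FM) (hSY3 : S_SY3) (hAP : S_APPROX) (hC1 : S_CIRC1) (hC2 : S_CIRC2)
    (hPA : S_PA) (hLAW : S_LAW) (hT1 : S_T1) (hT2 : S_T2) (hMOP : S_MOP) (hMFIN : S_MFIN)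
    (hINJ : S_INJ) (hDIL : S_DIL) (hLIP : S_LIP) (hMEAS : S_MEAS) : S_KP := by
  classical
  intro d hd K₀ s η B R ε hs hη hη1 hB hR hε
  set MM := Finset.Icc (-⌈B / η⌉) ⌈B / η⌉ with hMM
  set nk : ℝ := (MM.card : ℝ) + 1 with hnk
  have hnk1 : 1 ≤ nk := by rw [hnk]; have : (0:ℝ) ≤ MM.card := by positivity
                           linarith
  have hcard : (MM.card : ℝ) ≤ nk := by rw [hnk]; linarith
  -- small constants
  set ε' : ℝ := min 1 (ε / (8 * nk * (2 / η + 1))) with hε'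
  have hε'0 : 0 < ε' := by rw [hε']; positivity
  have hε'1 : ε' ≤ 1 := min_le_left _ _
  have hε'2 : ε' * (2 * (1 / η) + ε') * nk ≤ ε / 8 := by
    have h1 : ε' ≤ ε / (8 * nk * (2 / η + 1)) := min_le_right _ _
    have h2 : 2 * (1 / η) + ε' ≤ 2 / η + 1 := by
      have : 2 * (1 / η) = 2 / η := by ring
      linarith
    have h3 : 0 < 2 / η + 1 := by positivity
    calc ε' * (2 * (1 / η) + ε') * nk ≤ ε / (8 * nk * (2 / η + 1)) * (2 / η + 1) * nk := by
          gcongr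
      _ = ε / 8 := by field_simp
  set ε₁ : ℝ := ε * η / (32 * nk) with hε₁
  have hε₁0 : 0 < ε₁ := by rw [hε₁]; positivity
  obtain ⟨h₁, K₁, hh₁, hK₁, hK₁n⟩ := hAP (Fin d) K₀ ε₁ hε₁0
  set C : ℝ := ‖K₁‖ + (2 * s + 1) + R with hC
  have hC0 : 0 ≤ C := by rw [hC]; positivity
  have hzim : ∀ k : ℤ, (zk η k).im = η := fun k => rfl
  have hex : ∀ k : ℤ, ∃ P : Polynomial ℂ, PAp C (zk η k) ε' P := fun k =>
    hPA C (zk η k) ε' (by rw [hzim]; exact hη.ne') hε'0
  choose P hP using hex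
  set n : ℕ := MM.sup (fun k => (P k).natDegree) with hn
  have hdeg : ∀ k ∈ MM, (P k).natDegree ≤ n := fun k hk =>
    Finset.le_sup (f := fun k => (P k).natDegree) hk
  obtain ⟨b₁, hb₁⟩ := exists_supp_bound h₁
  set ℓ : ℕ := 2 * (n * b₁) + 1 with hℓ
  haveI : NeZero ℓ := ⟨by omega⟩
  set κ : (Fin d → ZMod ℓ) → ℂ := fun x => (h₁.mapDomain (castHom (Fin d) ℓ)) x with hκ
  have hκh : ∀ x, κ (-x) = (starRingEnd ℂ) (κ x) := fun x =>
    mapDomain_herm (castHom (Fin d) ℓ) h₁ hh₁ x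
  obtain ⟨δ, n₀, hδ, HFM⟩ := hFM (Fin d → ZMod ℓ) κ hκh s R η B (ε / 4) hs hR hη hη1 hB
    (by positivity)
  obtain ⟨r, a, hr, ha_sym, ha_b, ha_c⟩ := hSY3 d hd s (δ / 2) n₀ hs (by positivity)
  obtain ⟨ε₃, hε₃, hclose⟩ := ch_close (s ^ 2) (2 * s + 1) (δ / 2) (by positivity) n₀
  set ε₂ : ℝ := min (min 1 s) (min ε₃ ε₁) with hε₂
  have hε₂0 : 0 < ε₂ := by rw [hε₂]; positivity
  have hε₂1 : ε₂ ≤ 1 := (min_le_left _ _).trans (min_le_left _ _)
  have hε₂s : ε₂ ≤ s := (min_le_left _ _).trans (min_le_right _ _)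
  have hε₂3 : ε₂ ≤ ε₃ := (min_le_right _ _).trans (min_le_left _ _)
  have hε₂4 : ε₂ ≤ ε₁ := (min_le_right _ _).trans (min_le_right _ _)
  obtain ⟨h₂, a', hh₂, ha', ha'n⟩ := hAP (Fin d × Fin r) a ε₂ hε₂0
  have han : ‖a‖ ≤ 2 * s := (ContinuousMap.norm_le _ (by positivity)).2 fun k => ha_b k
  have ha'norm : ‖a'‖ ≤ 2 * s + ε₂ := by
    have h1 : ‖a'‖ ≤ ‖a' - a‖ + ‖a‖ := by
      have := norm_add_le (a' - a) a
      simpa using this
    linarith
  have hpt : ∀ k, |a' k - a k| ≤ ε₂ := fun k => by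
    have := (a' - a).norm_coe_le_norm k
    rw [ContinuousMap.sub_apply, Real.norm_eq_abs] at this
    exact this.trans ha'n
  have hcoef : ∀ m, 1 ≤ m → m ≤ n₀ → ∀ γ : Fin d × Fin r → ℤ,
      ‖UnitAddTorus.mFourierCoeff (fun k => ((ch (s ^ 2) (a' k) m : ℝ) : ℂ)) γ‖ ≤ δ := by
    intro m hm1 hm2 γ
    have h1 := coef_close (fun k => ((ch (s ^ 2) (a' k) m : ℝ) : ℂ))
      (fun k => ((ch (s ^ 2) (a k) m : ℝ) : ℂ))
      (Complex.continuous_ofReal.comp ((ch_cont (s ^ 2) m).1.comp a'.continuous))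
      (Complex.continuous_ofReal.comp ((ch_cont (s ^ 2) m).1.comp a.continuous)) (δ / 2)
      (fun k => by
        rw [← Complex.ofReal_sub, Complex.norm_real, Real.norm_eq_abs]
        refine hclose m hm2 _ _ ?_ ?_ ((hpt k).trans hε₂3)
        · have := a'.norm_coe_le_norm k
          rw [Real.norm_eq_abs] at this
          linarith
        · have := ha_b k
          linarith) γ
    have h2 := ha_c m hm1 hm2 γ
    have h3 := norm_sub_norm_le
      (UnitAddTorus.mFourierCoeff (fun k => ((ch (s ^ 2) (a' k) m : ℝ) : ℂ)) γ)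
      (UnitAddTorus.mFourierCoeff (fun k => ((ch (s ^ 2) (a k) m : ℝ) : ℂ)) γ)
    linarith
  obtain ⟨ℓ₀, hℓ₀⟩ := hC2 (Fin d × Fin r) h₂ a' ha' (s ^ 2) n₀
  obtain ⟨b₂, hb₂⟩ := exists_supp_bound h₂
  set ℓ' : ℕ := max ℓ₀ (2 * (n * b₂) + 1) with hℓ'
  have hℓ'1 : ℓ₀ ≤ ℓ' := le_max_left _ _
  have hℓ'2 : 2 * (n * b₂) < ℓ' := by have := le_max_right ℓ₀ (2 * (n * b₂) + 1); omega
  haveI : NeZero ℓ' := ⟨by omega⟩
  obtain ⟨hAh, hAn⟩ := hC1 (Fin d × Fin r) h₂ a' hh₂ ha' ℓ'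
  set A : Matrix (Fin d × Fin r → ZMod ℓ') (Fin d × Fin r → ZMod ℓ') ℂ := circ ℓ' h₂ with hA
  have hAdm : Adm s δ n₀ A := by
    refine ⟨hAh, ?_, ?_⟩
    · intro u
      refine (hAn u).trans ?_
      have : ‖a'‖ ≤ 3 * s := by linarith
      gcongr
    · intro m hm1 hm2 i j
      obtain ⟨γ, hγ⟩ := hℓ₀ ℓ' hℓ'1 m hm2 i j
      exact hγ.trans (hcoef m hm1 hm2 γ)
  -- the homomorphism to `ℤ^d`
  set h₀ := prodKer h₁ h₂ with hh₀
  set FF : Finset ((Fin d → ℤ) × (Fin d × Fin r → ℤ)) :=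
    (nb h₀ n ×ˢ nb h₀ n).image (fun p => p.1 - p.2) with hFF
  obtain ⟨N, hN⟩ := hINJ d r FF
  have hinj : ∀ x ∈ nb h₀ n, ∀ y ∈ nb h₀ n, phiN N x = phiN N y → x = y := by
    intro x hx y hy hxy
    have h1 : x - y ∈ FF := by
      rw [hFF]
      exact Finset.mem_image.2 ⟨(x, y), Finset.mem_product.2 ⟨hx, hy⟩, rfl⟩
    have h2 := hN (x - y) h1 (by rw [map_sub, hxy, sub_self])
    exact sub_eq_zero.1 h2
  obtain ⟨hsym, hker⟩ := hDIL d r N
  refine ⟨dil N a, hsym a ha_sym, ?_, ?_⟩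
  · refine (ContinuousMap.norm_le _ (by positivity)).2 fun k => ?_
    exact ha_b _
  intro ν _
  set K₂ : C(UnitAddTorus (Fin d), ℝ) := K₁ + dil N a' with hK₂
  have hK₂k : ∀ k, (K₂ k : ℂ) = trig (h₀.mapDomain (phiN N)) k := hker h₁ h₂ K₁ a' hK₁ ha'
  have hdiln : ‖dil N a'‖ ≤ 2 * s + 1 := by
    refine (ContinuousMap.norm_le _ (by positivity)).2 fun k => ?_
    exact (a'.norm_coe_le_norm _).trans (by linarith)
  have hK₂n : ‖K₂‖ + R ≤ C := by
    have := norm_add_le K₁ (dil N a')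
    rw [hC, hK₂]
    linarith
  have hdist : ‖(K₀ + dil N a) - K₂‖ ≤ 2 * ε₁ := by
    have h1 : ‖K₀ - K₁‖ ≤ ε₁ := by rw [norm_sub_rev]; exact hK₁n
    have h2 : ‖dil N a - dil N a'‖ ≤ ε₂ := by
      refine (ContinuousMap.norm_le _ hε₂0.le).2 fun k => ?_
      rw [ContinuousMap.sub_apply, Real.norm_eq_abs, abs_sub_comm]
      exact hpt _
    have h3 : (K₀ + dil N a) - K₂ = (K₀ - K₁) + (dil N a - dil N a') := by
      rw [hK₂]; abel
    rw [h3]
    exact (norm_add_le _ _).trans (by linarith)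
  -- the three functionals
  set μ₁ : Measure ((Fin d → ℤ) → ℝ) := Measure.infinitePi fun _ : Fin d → ℤ => ν with hμ₁
  set φF := phiF (d := Fin d) (m := Fin d × Fin r) ℓ ℓ' with hφF
  have hinjF : ∀ x ∈ nb h₀ n, ∀ y ∈ nb h₀ n, φF x = φF y → x = y :=
    phiF_inj h₁ h₂ b₁ b₂ hb₁ hb₂ n ℓ ℓ' (by omega) hℓ'2
  have hmapF : h₀.mapDomain φF = prodKer (h₁.mapDomain (castHom (Fin d) ℓ))
      (h₂.mapDomain (castHom (Fin d × Fin r) ℓ')) := mapDomain_prodKer _ _ _ _
  -- functions of moments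
  set F : ℤ → (Fin (n + 1) → ℂ) → ℝ := fun k f => (Pmom (P k) n f).im ^ 2 with hF
  have hFm : ∀ k, Measurable (F k) := by
    intro k
    refine (Complex.measurable_im.comp ?_).pow_const 2
    unfold Pmom
    exact Finset.measurable_sum _ fun m _ => (measurable_pi_apply m).const_mul _
  have hlaw : ∀ k, ∫ v, F k (fun m => mom (h₀.mapDomain (phiN N)) (fun x => clamp R (v x)) m) ∂μ₁ =
      ∫ v, F k (fun m => mom (h₀.mapDomain φF) (fun x => clamp R (v x)) m)
        ∂(pm (Fin d → ZMod ℓ) (Fin d × Fin r → ZMod ℓ') ν) := by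
    intro k
    have e1 := hLAW ((Fin d → ℤ) × (Fin d × Fin r → ℤ)) (Fin d → ℤ) (phiN N) h₀ n hinj ν
      (clamp R) (clamp_meas R) (F k) (hFm k)
    have e2 := hLAW ((Fin d → ℤ) × (Fin d × Fin r → ℤ))
      ((Fin d → ZMod ℓ) × (Fin d × Fin r → ZMod ℓ')) φF h₀ n hinjF ν
      (clamp R) (clamp_meas R) (F k) (hFm k)
    rw [Measure.infinitePi_eq_pi] at e2
    exact e1.trans e2.symm
  -- pointwise approximation, infinite model
  have hJ0 : ∀ (K : C(UnitAddTorus (Fin d), ℝ)) v k, 0 ≤ Jm K R v (zk η k) ∧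
      Jm K R v (zk η k) ≤ 1 / η := by
    intro K v k
    have := hLIP (Fin d) K K R hR v (zk η k) (by rw [hzim]; exact hη)
    rw [hzim] at this
    exact this.2
  have hA1 : ∀ k ∈ MM, ∀ v : (Fin d → ℤ) → ℝ, (Jm (K₀ + dil N a) R v (zk η k)) ^ 2 ≤
      F k (fun m => mom (h₀.mapDomain (phiN N)) (fun x => clamp R (v x)) m)
        + (2 * ε₁ / η ^ 2) * (2 / η) + ε' * (2 * (1 / η) + ε') := by
    intro k hk v
    have l1 := (hLIP (Fin d) (K₀ + dil N a) K₂ R hR v (zk η k) (by rw [hzim]; exact hη)).1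
    rw [hzim] at l1
    have l2 := inf_approx hT1 hT2 hMOP (h₀.mapDomain (phiN N)) K₂ hK₂k R hR C hK₂n (zk η k) ε'
      (P k) (hP k) n (hdeg k hk) v
    obtain ⟨x0, x1⟩ := hJ0 (K₀ + dil N a) v k
    obtain ⟨y0, y1⟩ := hJ0 K₂ v k
    set x := Jm (K₀ + dil N a) R v (zk η k)
    set y := Jm K₂ R v (zk η k)
    have l3 : |x - y| ≤ 2 * ε₁ / η ^ 2 := l1.trans (by gcongr)
    have l4 := abs_sq_sub_sq_le y _ (1 / η) ε' (by rw [abs_of_nonneg y0]; exact y1) l2
    have l5 : x ^ 2 - y ^ 2 ≤ (2 * ε₁ / η ^ 2) * (2 / η) := by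
      have e1 : x ^ 2 - y ^ 2 = (x - y) * (x + y) := by ring
      rw [e1]
      have e2 : x + y ≤ 2 / η := by
        have : (2 : ℝ) / η = 1 / η + 1 / η := by ring
        linarith
      calc (x - y) * (x + y) ≤ |x - y| * (x + y) := by
            gcongr
            exact le_abs_self _
        _ ≤ (2 * ε₁ / η ^ 2) * (2 / η) := by
            have : (0:ℝ) ≤ 2 * ε₁ / η ^ 2 := by positivity
            gcongr
    have l6 := (abs_le.1 l4).2
    show x ^ 2 ≤ (Pmom (P k) n _).im ^ 2 + _ + _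
    linarith
  -- pointwise approximation, finite model
  have hA2 : ∀ k ∈ MM, ∀ v : (Fin d → ZMod ℓ) × (Fin d × Fin r → ZMod ℓ') → ℝ,
      F k (fun m => mom (h₀.mapDomain φF) (fun x => clamp R (v x)) m) ≤
      ((gr κ A (fun x => clamp R (v x)) (zk η k) 0 0 0).im) ^ 2
        + ε' * (2 * (1 / η) + ε') := by
    intro k hk v
    set w : (Fin d → ZMod ℓ) × (Fin d × Fin r → ZMod ℓ') → ℝ := fun x => clamp R (v x) with hw
    have hopb : OpB (ham κ A w) C := by
      have h1 : OpB (ham κ A w) (‖K₁‖ + ‖a'‖ + R) :=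
        ham_opB κ A w ‖K₁‖ ‖a'‖ R (norm_nonneg _) (norm_nonneg _) hR.le
          ((hC1 (Fin d) h₁ K₁ hh₁ hK₁ ℓ).2) hAn (fun p => clamp_abs R _ hR)
      intro u
      refine (h1 u).trans ?_
      have : ‖K₁‖ + ‖a'‖ + R ≤ C := by rw [hC]; linarith
      gcongr
    have hherm := ham_herm κ hκh A hAh w
    have l1 := fin_approx (ham κ A w) hherm C hC0 hopb (zk η k) ε' (P k) (hP k) n (hdeg k hk)
      ((0 : Fin d → ZMod ℓ), (0 : Fin d × Fin r → ZMod ℓ'))
      ((0 : Fin d → ZMod ℓ), (0 : Fin d × Fin r → ZMod ℓ'))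
    have l2 : (fun m : Fin (n + 1) => ((ham κ A w) ^ (m : ℕ))
        ((0 : Fin d → ZMod ℓ), (0 : Fin d × Fin r → ZMod ℓ'))
        ((0 : Fin d → ZMod ℓ), (0 : Fin d × Fin r → ZMod ℓ'))) =
        fun m : Fin (n + 1) => mom (h₀.mapDomain φF) w m := by
      funext m
      rw [hmapF]
      exact hMFIN _ _ _ _ w m
    rw [l2] at l1
    set g := gr κ A w (zk η k) (0 : Fin d × Fin r → ZMod ℓ') (0 : Fin d → ZMod ℓ)
      (0 : Fin d → ZMod ℓ) with hg
    set q := Pmom (P k) n (fun m => mom (h₀.mapDomain φF) w m) with hq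
    have l3 : |q.im - g.im| ≤ ε' := by
      rw [← Complex.sub_im]
      refine (Complex.abs_im_le_norm _).trans ?_
      rw [norm_sub_rev]
      exact l1
    have l4 : |g.im| ≤ 1 / η := by
      have hgr := ((hGR (Fin d → ZMod ℓ) (Fin d × Fin r → ZMod ℓ') κ hκh A hAh
        (0 : Fin d × Fin r → ZMod ℓ')).2.2.2.1 (zk η k) (by rw [hzim]; exact hη) w).2.2
      rw [hzim] at hgr
      refine (Complex.abs_im_le_norm _).trans ?_
      exact (entry_le_norm (gr κ A w (zk η k) (0 : Fin d × Fin r → ZMod ℓ')) _ _).trans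
        (norm_toCLM_le _ _ (by positivity) hgr)
    have l5 : |g.im - q.im| ≤ ε' := by rw [abs_sub_comm]; exact l3
    have l6 := abs_sq_sub_sq_le g.im q.im (1 / η) ε' l4 l5
    have l7 := (abs_le.1 l6).1
    show q.im ^ 2 ≤ g.im ^ 2 + _
    linarith
  -- integration
  haveI : IsProbabilityMeasure μ₁ := by rw [hμ₁]; infer_instance
  set μ₂ := pm (Fin d → ZMod ℓ) (Fin d × Fin r → ZMod ℓ') ν with hμ₂
  haveI : IsProbabilityMeasure μ₂ := by rw [hμ₂]; unfold pm; infer_instance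
  set c₂ : ℝ := ε' * (2 * (1 / η) + ε') with hc₂
  have hc₂0 : 0 ≤ c₂ := by rw [hc₂]; positivity
  set c₁ : ℝ := (2 * ε₁ / η ^ 2) * (2 / η) with hc₁
  have hc₁0 : 0 ≤ c₁ := by rw [hc₁]; positivity
  have hbdd : ∀ {Ω : Type} [MeasurableSpace Ω] (μ : Measure Ω) [IsProbabilityMeasure μ]
      (f : Ω → ℝ) (M : ℝ), Measurable f → (∀ w, 0 ≤ f w) → (∀ w, f w ≤ M) → Integrable f μ := by
    intro Ω _ μ _ f M h1 h2 h3
    refine Integrable.of_bound h1.aestronglyMeasurable M (Filter.Eventually.of_forall fun w => ?_)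
    rw [Real.norm_eq_abs, abs_of_nonneg (h2 w)]
    exact h3 w
  -- integrability
  have I1 : ∀ k, Integrable (fun v => (Jm (K₀ + dil N a) R v (zk η k)) ^ 2) μ₁ := by
    intro k
    refine hbdd μ₁ _ ((1 / η) ^ 2)
      ((hMEAS (Fin d) (K₀ + dil N a) R hR (zk η k) (by rw [hzim]; exact hη)).pow_const 2)
      (fun w => sq_nonneg _) (fun w => ?_)
    have := hJ0 (K₀ + dil N a) w k
    exact pow_le_pow_left₀ this.1 this.2 2
  have I2 : ∀ k ∈ MM, Integrable
      (fun v => F k (fun m => mom (h₀.mapDomain (phiN N)) (fun x => clamp R (v x)) m)) μ₁ := by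
    intro k hk
    refine hbdd μ₁ _ ((1 / η + ε') ^ 2)
      ((hFm k).comp (measurable_pi_lambda _ fun m => mom_meas _ R m))
      (fun w => sq_nonneg _) (fun w => ?_)
    have l2 := inf_approx hT1 hT2 hMOP (h₀.mapDomain (phiN N)) K₂ hK₂k R hR C hK₂n (zk η k) ε'
      (P k) (hP k) n (hdeg k hk) w
    obtain ⟨y0, y1⟩ := hJ0 K₂ w k
    show (Pmom (P k) n _).im ^ 2 ≤ _
    rw [← sq_abs]
    refine pow_le_pow_left₀ (abs_nonneg _) ?_ 2
    have l3 := abs_le.1 l2
    rw [abs_le]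
    constructor
    · linarith [l3.2]
    · linarith [l3.1]
  have I4 : ∀ k, Integrable (fun v : (Fin d → ZMod ℓ) × (Fin d × Fin r → ZMod ℓ') → ℝ =>
      ((gr κ A (fun x => clamp R (v x)) (zk η k) 0 0 0).im) ^ 2) μ₂ := by
    intro k
    refine hbdd μ₂ _ ((1 / η) ^ 2) ?_ (fun w => sq_nonneg _) (fun w => ?_)
    · refine (Complex.measurable_im.comp ?_).pow_const 2
      exact (gr_meas κ A (zk η k) 0 0 0).comp
        (measurable_pi_lambda _ fun x => (clamp_meas R).comp (measurable_pi_apply x))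
    · have hgr := ((hGR (Fin d → ZMod ℓ) (Fin d × Fin r → ZMod ℓ') κ hκh A hAh
        (0 : Fin d × Fin r → ZMod ℓ')).2.2.2.1 (zk η k) (by rw [hzim]; exact hη)
        (fun x => clamp R (w x))).2.2
      rw [hzim] at hgr
      rw [← sq_abs]
      refine pow_le_pow_left₀ (abs_nonneg _) ((Complex.abs_im_le_norm _).trans ?_) 2
      exact (entry_le_norm (gr κ A (fun x => clamp R (w x)) (zk η k)
        (0 : Fin d × Fin r → ZMod ℓ')) _ _).trans (norm_toCLM_le _ _ (by positivity) hgr)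
  have I3 : ∀ k ∈ MM, Integrable
      (fun v => F k (fun m => mom (h₀.mapDomain φF) (fun x => clamp R (v x)) m)) μ₂ := by
    intro k hk
    refine ((I4 k).add (integrable_const c₂)).mono'
      ((hFm k).comp (measurable_pi_lambda _ fun m => mom_meas _ R m)).aestronglyMeasurable
      (Filter.Eventually.of_forall fun w => ?_)
    rw [Real.norm_eq_abs, abs_of_nonneg (sq_nonneg _)]
    exact hA2 k hk w
  have S1 : ∀ k ∈ MM, ∫ v, (Jm (K₀ + dil N a) R v (zk η k)) ^ 2 ∂μ₁ ≤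
      ∫ v, ((gr κ A (fun x => clamp R (v x)) (zk η k) 0 0 0).im) ^ 2 ∂μ₂ + (c₁ + 2 * c₂) := by
    intro k hk
    have t1 : ∫ v, (Jm (K₀ + dil N a) R v (zk η k)) ^ 2 ∂μ₁ ≤
        ∫ v, (F k (fun m => mom (h₀.mapDomain (phiN N)) (fun x => clamp R (v x)) m)
          + (c₁ + c₂)) ∂μ₁ := by
      refine integral_mono (I1 k) ((I2 k hk).add (integrable_const _)) fun v => ?_
      have := hA1 k hk v
      show (Jm (K₀ + dil N a) R v (zk η k)) ^ 2 ≤ _ + (c₁ + c₂)
      rw [← add_assoc]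
      exact this
    rw [integral_add (I2 k hk) (integrable_const _), integral_const, probReal_univ, one_smul,
      hlaw k] at t1
    have t2 : ∫ v, F k (fun m => mom (h₀.mapDomain φF) (fun x => clamp R (v x)) m) ∂μ₂ ≤
        ∫ v, (((gr κ A (fun x => clamp R (v x)) (zk η k) 0 0 0).im) ^ 2 + c₂) ∂μ₂ := by
      refine integral_mono (I3 k hk) ((I4 k).add (integrable_const _)) fun v => ?_
      exact hA2 k hk v
    rw [integral_add (I4 k) (integrable_const _), integral_const, probReal_univ, one_smul] at t2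
    linarith
  have S2 : ∫ v, Qz (K₀ + dil N a) η B R v ∂μ₁ =
      η ^ 2 * ∑ k ∈ MM, ∫ v, (Jm (K₀ + dil N a) R v (zk η k)) ^ 2 ∂μ₁ := by
    unfold Qz
    rw [integral_const_mul, integral_finset_sum _ fun k _ => I1 k]
  have S3 : ∫ v, Qf κ A η B (fun x => clamp R (v x)) (0 : Fin d × Fin r → ZMod ℓ') ∂μ₂ =
      η ^ 2 * ∑ k ∈ MM,
        ∫ v, ((gr κ A (fun x => clamp R (v x)) (zk η k) 0 0 0).im) ^ 2 ∂μ₂ := by
    unfold Qf
    rw [integral_const_mul, integral_finset_sum _ fun k _ => I4 k]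
  haveI : IsProbabilityMeasure (ν.map (clamp R)) :=
    Measure.isProbabilityMeasure_map (clamp_meas R).aemeasurable
  have S4 := HFM (Fin d × Fin r → ZMod ℓ') A 0 (ν.map (clamp R)) (map_clamp_supp R hR ν) hAdm
  rw [fin_int, S3] at S4
  rw [S2]
  have S5 : η ^ 2 * ∑ k ∈ MM, ∫ v, (Jm (K₀ + dil N a) R v (zk η k)) ^ 2 ∂μ₁ ≤
      η ^ 2 * ∑ k ∈ MM,
        (∫ v, ((gr κ A (fun x => clamp R (v x)) (zk η k) 0 0 0).im) ^ 2 ∂μ₂ + (c₁ + 2 * c₂)) := by
    gcongr with k hk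
    exact S1 k hk
  rw [Finset.sum_add_distrib, Finset.sum_const, nsmul_eq_mul, mul_add] at S5
  have S6 : η ^ 2 * ((MM.card : ℝ) * (c₁ + 2 * c₂)) ≤ 3 * ε / 8 := by
    have u1 : η ^ 2 * ((MM.card : ℝ) * (c₁ + 2 * c₂)) ≤ η ^ 2 * (nk * (c₁ + 2 * c₂)) := by
      gcongr
    have u2 : η ^ 2 * (nk * c₁) = ε / 8 := by
      rw [hc₁, hε₁]
      have : nk ≠ 0 := by positivity
      field_simp
      ring
    have u3 : η ^ 2 * (nk * (2 * c₂)) ≤ ε / 4 := by
      have v1 : nk * (2 * c₂) ≤ ε / 4 := by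
        have : c₂ * nk ≤ ε / 8 := hε'2
        linarith
      have v2 : η ^ 2 ≤ 1 := pow_le_one₀ hη.le hη1
      have v3 : 0 ≤ nk * (2 * c₂) := by positivity
      calc η ^ 2 * (nk * (2 * c₂)) ≤ 1 * (nk * (2 * c₂)) := by gcongr
        _ ≤ ε / 4 := by linarith
    have u4 : η ^ 2 * (nk * (c₁ + 2 * c₂)) = η ^ 2 * (nk * c₁) + η ^ 2 * (nk * (2 * c₂)) := by ring
    linarith
  linarith

end

end Pool.Agent.W792.GK
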